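import Pool.Agent.K4H73.Greedy.Three

/-!
# The length of the cuts of a partition into three pieces
-/

set_option autoImplicit false

namespace Pool.Agent.K4H73.Greedy

open Set MeasureTheory

/-! ### Distances -/

theorem dist_combo_le {δ : ℝ} {p q₁ q₂ q₃ : E2} {l₁ l₂ l₃ : ℝ} (h2 : 0 ≤ l₂)
    (h3 : 0 ≤ l₃) (hs : l₁ + l₂ + l₃ = 1) (hp : p = l₁ • q₁ + l₂ • q₂ + l₃ • q₃)
    (d12 : dist q₂ q₁ ≤ δ) (d13 : dist q₃ q₁ ≤ δ) : dist p q₁ ≤ (1 - l₁) * δ := by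
  have h1 : p - q₁ = l₂ • (q₂ - q₁) + l₃ • (q₃ - q₁) := by
    have : l₁ = 1 - l₂ - l₃ := by linarith
    rw [hp, this]
    module
  rw [dist_eq_norm, h1]
  calc ‖l₂ • (q₂ - q₁) + l₃ • (q₃ - q₁)‖ ≤ ‖l₂ • (q₂ - q₁)‖ + ‖l₃ • (q₃ - q₁)‖ := norm_add_le _ _
    _ = l₂ * dist q₂ q₁ + l₃ * dist q₃ q₁ := by
      rw [norm_smul, norm_smul, Real.norm_of_nonneg h2, Real.norm_of_nonneg h3, dist_eq_norm,
        dist_eq_norm]
    _ ≤ l₂ * δ + l₃ * δ := by gcongr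
    _ = (1 - l₁) * δ := by rw [← hs]; ring

theorem dist_combo_lt {δ : ℝ} {p q₁ q₂ q₃ : E2} {l₁ l₂ l₃ : ℝ} (h2 : 0 < l₂)
    (h3 : 0 < l₃) (hs : l₁ + l₂ + l₃ = 1) (hp : p = l₁ • q₁ + l₂ • q₂ + l₃ • q₃)
    (d12 : dist q₂ q₁ ≤ δ) (d13 : dist q₃ q₁ ≤ δ) (hne : q₂ ≠ q₃) : dist p q₁ < (1 - l₁) * δ := by
  have hσ : 0 < l₂ + l₃ := by positivity
  have h1 : p - q₁ = (l₂ + l₃) • ((l₂ / (l₂ + l₃)) • (q₂ - q₁) + (l₃ / (l₂ + l₃)) • (q₃ - q₁)) := by
    have : l₁ = 1 - l₂ - l₃ := by linarith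
    rw [smul_add, smul_smul, smul_smul, mul_div_cancel₀ _ hσ.ne', mul_div_cancel₀ _ hσ.ne', hp, this]
    module
  rw [dist_eq_norm, h1, norm_smul, Real.norm_of_nonneg hσ.le]
  have h4 : ‖(l₂ / (l₂ + l₃)) • (q₂ - q₁) + (l₃ / (l₂ + l₃)) • (q₃ - q₁)‖ < δ := by
    apply norm_combo_lt_of_ne
    · rwa [← dist_eq_norm]
    · rwa [← dist_eq_norm]
    · intro h
      exact hne (sub_left_injective h)
    · positivity
    · positivity
    · rw [← add_div, div_self hσ.ne']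
  calc (l₂ + l₃) * _ < (l₂ + l₃) * δ := mul_lt_mul_of_pos_left h4 hσ
    _ = (1 - l₁) * δ := by rw [← hs]; ring

theorem mem_triple {p q₁ q₂ q₃ : E2} (hp : p ∈ convexHull ℝ {q₁, q₂, q₃}) :
    ∃ l₁ l₂ l₃ : ℝ, 0 ≤ l₁ ∧ 0 ≤ l₂ ∧ 0 ≤ l₃ ∧ l₁ + l₂ + l₃ = 1 ∧
      p = l₁ • q₁ + l₂ • q₂ + l₃ • q₃ := by
  rw [convexHull_insert (insert_nonempty _ _), convexHull_pair, mem_convexJoin] at hp
  obtain ⟨a, ha, b, ⟨s, t, hs, ht, hst, rfl⟩, ⟨u, v, hu, hv, huv, rfl⟩⟩ := hp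
  rw [mem_singleton_iff] at ha
  subst ha
  refine ⟨u, v * s, v * t, hu, mul_nonneg hv hs, mul_nonneg hv ht, ?_, ?_⟩
  · rw [add_assoc, ← mul_add, hst, mul_one, huv]
  · rw [smul_add, smul_smul, smul_smul, add_assoc]

/-- the sum of the distances from a point of a triangle, not a vertex, to the vertices -/
theorem sum_dist_lt {δ : ℝ} {p q₁ q₂ q₃ : E2} (hp : p ∈ convexHull ℝ {q₁, q₂, q₃})
    (h1 : p ≠ q₁) (h2 : p ≠ q₂) (h3 : p ≠ q₃) (n12 : q₁ ≠ q₂) (n13 : q₁ ≠ q₃) (n23 : q₂ ≠ q₃)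
    (d12 : dist q₁ q₂ ≤ δ) (d13 : dist q₁ q₃ ≤ δ) (d23 : dist q₂ q₃ ≤ δ) :
    dist p q₁ + dist p q₂ + dist p q₃ < 2 * δ := by
  obtain ⟨l₁, l₂, l₃, p1, p2, p3, hs, hp⟩ := mem_triple hp
  have hp' : p = l₂ • q₂ + l₁ • q₁ + l₃ • q₃ := by rw [hp, add_comm (l₁ • q₁)]
  have hp'' : p = l₃ • q₃ + l₁ • q₁ + l₂ • q₂ := by rw [hp]; abel
  have s' : l₂ + l₁ + l₃ = 1 := by linarith
  have s'' : l₃ + l₁ + l₂ = 1 := by linarith
  have d21 : dist q₂ q₁ ≤ δ := by rwa [dist_comm]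
  have d31 : dist q₃ q₁ ≤ δ := by rwa [dist_comm]
  have d32 : dist q₃ q₂ ≤ δ := by rwa [dist_comm]
  have e1 := dist_combo_le p2 p3 hs hp d21 d31
  have e2 := dist_combo_le p1 p3 s' hp' d12 d32
  have e3 := dist_combo_le p1 p2 s'' hp'' d13 d23
  have hsum : (1 - l₁) * δ + (1 - l₂) * δ + (1 - l₃) * δ = 2 * δ := by
    have : (1 - l₁) * δ + (1 - l₂) * δ + (1 - l₃) * δ = (3 - (l₁ + l₂ + l₃)) * δ := by ring
    rw [this, hs]; ring
  rcases p1.eq_or_lt with z1 | z1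
  · rcases p2.eq_or_lt with z2 | z2
    · exfalso
      apply h3
      have : l₃ = 1 := by linarith
      rw [hp, ← z1, ← z2, this]; simp
    rcases p3.eq_or_lt with z3 | z3
    · exfalso
      apply h2
      have : l₂ = 1 := by linarith
      rw [hp, ← z1, ← z3, this]; simp
    have := dist_combo_lt z2 z3 hs hp d21 d31 n23
    linarith
  · rcases p2.eq_or_lt with z2 | z2
    · rcases p3.eq_or_lt with z3 | z3
      · exfalso
        apply h1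
        have : l₁ = 1 := by linarith
        rw [hp, ← z2, ← z3, this]; simp
      have := dist_combo_lt z1 z3 s' hp' d12 d32 n13
      linarith
    · have := dist_combo_lt z1 z2 s'' hp'' d13 d23 n12
      linarith

theorem middle_real (a b c : ℝ) :
    (∃ s : ℝ, 0 ≤ s ∧ s ≤ 1 ∧ b = (1 - s) * a + s * c) ∨
      (∃ s : ℝ, 0 ≤ s ∧ s ≤ 1 ∧ a = (1 - s) * b + s * c) ∨
      (∃ s : ℝ, 0 ≤ s ∧ s ≤ 1 ∧ c = (1 - s) * a + s * b) := by
  have key : ∀ a b c : ℝ, a ≤ b → b ≤ c → ∃ s : ℝ, 0 ≤ s ∧ s ≤ 1 ∧ b = (1 - s) * a + s * c := by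
    intro a b c hab hbc
    rcases (hab.trans hbc).eq_or_lt with hac | hac
    · exact ⟨0, le_rfl, zero_le_one, by linarith⟩
    · have hden : 0 < c - a := by linarith
      refine ⟨(b - a) / (c - a), div_nonneg (by linarith) hden.le, ?_, ?_⟩
      · rw [div_le_one hden]; linarith
      · field_simp; ring
  have flip : ∀ x y z s : ℝ, 0 ≤ s → s ≤ 1 → x = (1 - s) * y + s * z →
      ∃ s : ℝ, 0 ≤ s ∧ s ≤ 1 ∧ x = (1 - s) * z + s * y := by
    intro x y z s h0 h1 h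
    exact ⟨1 - s, by linarith, by linarith, by rw [h]; ring⟩
  rcases le_total a b with c1 | c1 <;> rcases le_total b c with c2 | c2 <;>
    rcases le_total a c with c3 | c3
  · exact Or.inl (key a b c c1 c2)
  · exact Or.inl (key a b c c1 c2)
  · exact Or.inr (Or.inr (key a c b c3 c2))
  · obtain ⟨s, s0, s1, hs⟩ := key c a b c3 c1
    exact Or.inr (Or.inl (flip a c b s s0 s1 hs))
  · exact Or.inr (Or.inl (key b a c c1 c3))
  · obtain ⟨s, s0, s1, hs⟩ := key b c a c2 c3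
    exact Or.inr (Or.inr (flip c b a s s0 s1 hs))
  · obtain ⟨s, s0, s1, hs⟩ := key c b a c2 c1
    exact Or.inl (flip b c a s s0 s1 hs)
  · obtain ⟨s, s0, s1, hs⟩ := key c b a c2 c1
    exact Or.inl (flip b c a s s0 s1 hs)

/-! ### Existence of a common point -/

section

variable {C A B D : Set E2} (h : Tri C A B D)
include h

theorem Tri.common_point (hAB : (A ∩ B).Nonempty) (hAD : (A ∩ D).Nonempty)
    (hBD : (B ∩ D).Nonempty) : (A ∩ B ∩ D).Nonempty := by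
  by_contra hcon
  rw [not_nonempty_iff_eq_empty] at hcon
  obtain ⟨f, u, v, h1, huv, h2⟩ := geometric_hahn_banach_compact_closed
    (h.bA.convex.inter h.bB.convex) (h.bA.compact.inter h.bB.compact) h.bD.convex h.bD.closed
    (disjoint_iff_inter_eq_empty.2 hcon)
  obtain ⟨x, hx⟩ := hAB
  obtain ⟨y, hy⟩ := hAD
  obtain ⟨z, hz⟩ := hBD
  have hfx := h1 x hx
  have hfy := h2 y hy.2
  have hfz := h2 z hz.2
  have hlevel : ∀ w : E2, v < f w → ∀ S : Set E2, Convex ℝ S → x ∈ S → w ∈ S →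
      ∃ m ∈ S, f m = v := by
    intro w hw S hS hxS hwS
    have hden : 0 < f w - f x := by linarith
    refine ⟨((f w - v) / (f w - f x)) • x + ((v - f x) / (f w - f x)) • w, ?_, ?_⟩
    · apply hS hxS hwS
      · exact div_nonneg (by linarith) hden.le
      · exact div_nonneg (by linarith) hden.le
      · rw [← add_div]
        rw [div_eq_one_iff_eq hden.ne']; ring
    · rw [map_add, map_smul, map_smul, smul_eq_mul, smul_eq_mul]
      field_simp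
      ring
  obtain ⟨m, hmA, hm⟩ := hlevel y hfy A h.bA.convex hx.1 hy.1
  obtain ⟨m', hmB, hm'⟩ := hlevel z hfz B h.bB.convex hx.2 hz.1
  have hH : Convex ℝ (C ∩ {x | f x = v}) := by
    apply h.conv.inter
    intro a ha b hb s t hs ht hst
    change f (s • a + t • b) = v
    rw [map_add, map_smul, map_smul, smul_eq_mul, smul_eq_mul, (ha : f a = v), (hb : f b = v),
      ← add_mul, hst, one_mul]
  have hpre := hH.isPreconnected
  rw [isPreconnected_closed_iff] at hpre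
  obtain ⟨w, ⟨-, hwf⟩, hwA, hwB⟩ := hpre A B h.bA.closed h.bB.closed (by
    rintro w ⟨hwC, hwf⟩
    rw [← h.un] at hwC
    rcases hwC with (hw | hw) | hw
    · exact Or.inl hw
    · exact Or.inr hw
    · have := h2 w hw
      rw [(hwf : f w = v)] at this
      exact (lt_irrefl _ this).elim) ⟨m, ⟨h.subA hmA, hm⟩, hmA⟩ ⟨m', ⟨h.subB hmB, hm'⟩, hmB⟩
  have := h1 w ⟨hwA, hwB⟩
  rw [(hwf : f w = v)] at this
  linarith

/-- the common point is an endpoint of each cut -/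
theorem Tri.endpoint {p a b : E2} (hp : p ∈ A ∩ B ∩ D) (hab : A ∩ B = segment ℝ a b) :
    ∃ q, A ∩ B = segment ℝ p q := by
  by_cases hne : a = b
  · subst hne
    refine ⟨a, ?_⟩
    have : p ∈ A ∩ B := hp.1
    rw [hab, segment_same, mem_singleton_iff] at this
    rw [this]
    exact hab
  have hp1 : p ∈ segment ℝ a b := by rw [← hab]; exact hp.1
  by_cases h1 : p = a
  · exact ⟨b, h1 ▸ hab⟩
  by_cases h2 : p = b
  · exact ⟨a, by rw [hab, h2, segment_symm]⟩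
  exfalso
  exact no_third h.bA h.bB h.bD h.dAB h.dAD h.dBD hne
    (by rw [hab]; exact left_mem_segment ℝ a b) (by rw [hab]; exact right_mem_segment ℝ a b)
    (mem_openSegment_of_ne_left_right (Ne.symm h1) (Ne.symm h2) hp1) hp.2

/-- two cuts do not leave the common point in the same direction -/
theorem Tri.not_same {p q q' : E2} (hp : p ∈ A ∩ B ∩ D) (hq : q ∈ A ∩ B) (hq' : q' ∈ D)
    (hpq : p ≠ q) {t : ℝ} (ht : 0 < t) (hd : q' - p = t • (q - p)) :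
    False := by
  -- the point `p + min 1 t (q - p)`
  have hx1 : p + (min 1 t) • (q - p) ∈ segment ℝ p q := by
    rw [segment_eq_image']
    exact ⟨min 1 t, ⟨by positivity, min_le_left _ _⟩, rfl⟩
  have hx2 : p + (min 1 t) • (q - p) ∈ segment ℝ p q' := by
    rw [segment_eq_image']
    refine ⟨min 1 t / t, ⟨by positivity, ?_⟩, ?_⟩
    · rw [div_le_one ht]; exact min_le_right _ _
    · simp only
      rw [hd, smul_smul, div_mul_cancel₀ _ ht.ne']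
  have hAB : p + (min 1 t) • (q - p) ∈ A ∩ B :=
    (h.bA.convex.inter h.bB.convex).segment_subset hp.1 hq hx1
  have hD : p + (min 1 t) • (q - p) ∈ D := h.bD.convex.segment_subset hp.2 hq' hx2
  have := h.triple_subsingleton ⟨hAB, hD⟩ hp
  have h0 : (min 1 t) • (q - p) = 0 := by simpa using this
  rw [smul_eq_zero] at h0
  rcases h0 with h0 | h0
  · have : 0 < min 1 t := by positivity
    linarith
  · exact hpq (sub_eq_zero.1 h0).symm

/-- the cut `A ∩ D` is not between the cuts `A ∩ B` and `B ∩ D` -/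
theorem Tri.not_middle {p q₁ q₂ q₃ : E2} (hp : p ∈ A ∩ B ∩ D) (hq1 : q₁ ∈ A ∩ B)
    (hq2 : q₂ ∈ A ∩ D) (hq3 : q₃ ∈ B ∩ D) (h1 : p ≠ q₁) {g : E2 →L[ℝ] ℝ}
    (g1 : 0 < g (q₁ - p)) (g2 : 0 < g (q₂ - p)) (g3 : 0 < g (q₃ - p)) {α β : ℝ}
    (hβ : 0 ≤ β) (hd : q₂ - p = α • (q₁ - p) + β • (q₃ - p)) : False := by
  obtain ⟨f, c, hf, f1, f2⟩ := separate h.bA h.bB h.dAB
  have fp : f p = c := le_antisymm (f1 p hp.1.1) (f2 p hp.1.2)
  have fq1 : f q₁ = c := le_antisymm (f1 q₁ hq1.1) (f2 q₁ hq1.2)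
  have hw : q₁ - p ≠ 0 := sub_ne_zero.2 h1.symm
  have hfw : f (q₁ - p) = 0 := by rw [map_sub, fp, fq1, sub_self]
  have e1 : f (q₂ - p) = β * f (q₃ - p) := by
    rw [hd, map_add, map_smul, map_smul, hfw, smul_eq_mul, smul_eq_mul, mul_zero, zero_add]
  have e2 : f (q₂ - p) ≤ 0 := by
    rw [map_sub, fp]; linarith [f1 q₂ hq2.1]
  have e3 : 0 ≤ f (q₃ - p) := by
    rw [map_sub, fp]; linarith [f2 q₃ hq3.1]
  rcases hβ.eq_or_lt with hβ0 | hβ0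
  · -- same direction as `q₁`
    rw [← hβ0, zero_smul, add_zero] at hd
    have hα : 0 < α := by
      rw [hd, map_smul, smul_eq_mul] at g2
      exact pos_of_mul_pos_left g2 g1.le
    exact h.not_same hp hq1 hq2.2 h1 hα hd
  · have e4 : f (q₃ - p) = 0 := by
      rcases e3.eq_or_lt with h0 | h0
      · exact h0.symm
      · have := mul_pos hβ0 h0
        linarith
    obtain ⟨t, ht⟩ := exists_mul_of_ker hf hw hfw e4
    have htpos : 0 < t := by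
      rw [ht, map_smul, smul_eq_mul] at g3
      exact pos_of_mul_pos_left g3 g1.le
    exact h.not_same hp hq1 hq3.2 h1 htpos ht

omit h in
theorem combo_aux {G₁ G₂ G₃ s : ℝ} {d₁ d₂ d₃ r₁ r₂ r₃ : E2} (h1 : d₁ = G₁ • r₁)
    (h2 : d₂ = G₂ • r₂) (h3 : d₃ = G₃ • r₃) (n1 : G₁ ≠ 0) (n3 : G₃ ≠ 0)
    (hr : r₂ = (1 - s) • r₁ + s • r₃) :
    d₂ = (G₂ * (1 - s) / G₁) • d₁ + (G₂ * s / G₃) • d₃ := by
  rw [h1, h2, h3, hr, smul_smul, smul_smul, div_mul_cancel₀ _ n1, div_mul_cancel₀ _ n3]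
  module

theorem Tri.mem_hull {p q₁ q₂ q₃ : E2} (hp : p ∈ A ∩ B ∩ D) (hq1 : q₁ ∈ A ∩ B)
    (hq2 : q₂ ∈ A ∩ D) (hq3 : q₃ ∈ B ∩ D) (h1 : p ≠ q₁) (h2 : p ≠ q₂) (h3 : p ≠ q₃) :
    p ∈ convexHull ℝ {q₁, q₂, q₃} := by
  by_contra hcon
  have hfin : ({q₁, q₂, q₃} : Set E2).Finite := toFinite _
  obtain ⟨g, u, hgp, hg⟩ := geometric_hahn_banach_point_closed (convex_convexHull ℝ _)
    (hfin.isCompact_convexHull ℝ).isClosed hcon
  have gq : ∀ q ∈ ({q₁, q₂, q₃} : Set E2), 0 < g (q - p) := by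
    intro q hq
    have := hg q (subset_convexHull ℝ _ hq)
    rw [map_sub]; linarith
  have g1 := gq q₁ (by simp)
  have g2 := gq q₂ (by simp)
  have g3 := gq q₃ (by simp)
  have hg0 : g ≠ 0 := by
    rintro rfl
    simp at g1
  obtain ⟨w, hw, hgw⟩ := exists_ker_ne g
  -- normalised directions
  have hdir : ∀ q, 0 < g (q - p) → ∃ t : ℝ, (g (q - p))⁻¹ • (q - p) =
      (g (q₁ - p))⁻¹ • (q₁ - p) + t • w := by
    intro q hq
    obtain ⟨t, ht⟩ := exists_mul_of_ker hg0 hw hgw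
      (show g ((g (q - p))⁻¹ • (q - p) - (g (q₁ - p))⁻¹ • (q₁ - p)) = 0 by
        rw [map_sub, map_smul, map_smul, smul_eq_mul, smul_eq_mul, inv_mul_cancel₀ hq.ne',
          inv_mul_cancel₀ g1.ne', sub_self])
    exact ⟨t, by rw [← ht]; abel⟩
  obtain ⟨t₂, ht2⟩ := hdir q₂ g2
  obtain ⟨t₃, ht3⟩ := hdir q₃ g3
  set r₁ := (g (q₁ - p))⁻¹ • (q₁ - p) with hr1
  set r₂ := (g (q₂ - p))⁻¹ • (q₂ - p) with hr2
  set r₃ := (g (q₃ - p))⁻¹ • (q₃ - p) with hr3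
  have back1 : q₁ - p = g (q₁ - p) • r₁ := by rw [hr1, smul_smul, mul_inv_cancel₀ g1.ne', one_smul]
  have back2 : q₂ - p = g (q₂ - p) • r₂ := by rw [hr2, smul_smul, mul_inv_cancel₀ g2.ne', one_smul]
  have back3 : q₃ - p = g (q₃ - p) • r₃ := by rw [hr3, smul_smul, mul_inv_cancel₀ g3.ne', one_smul]
  have hmk : ∀ a b c x y z : ℝ, ∀ s : ℝ, ∀ R₁ R₂ R₃ : E2, R₁ = r₁ + a • w → R₂ = r₁ + b • w →
      R₃ = r₁ + c • w → b = (1 - s) * a + s * c → R₂ = (1 - s) • R₁ + s • R₃ := by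
    intro a b c x y z s R₁ R₂ R₃ h1 h2 h3 hb
    rw [h1, h2, h3, hb]; module
  have hr1' : r₁ = r₁ + (0 : ℝ) • w := by rw [zero_smul, add_zero]
  rcases middle_real 0 t₂ t₃ with ⟨s, s0, s1, hs⟩ | ⟨s, s0, s1, hs⟩ | ⟨s, s0, s1, hs⟩
  · -- `q₂` is in the middle
    exact h.not_middle hp hq1 hq2 hq3 h1 g1 g2 g3 (by positivity)
      (combo_aux back1 back2 back3 g1.ne' g3.ne' (hmk _ _ _ 0 0 0 s _ _ _ hr1' ht2 ht3 hs))
  · exact h.swap23.not_middle (q₁ := q₂) (q₂ := q₁) (q₃ := q₃) ⟨⟨hp.1.1, hp.2⟩, hp.1.2⟩ hq2 hq1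
      ⟨hq3.2, hq3.1⟩ h2 g2 g1 g3 (by positivity)
      (combo_aux back2 back1 back3 g2.ne' g3.ne' (hmk _ _ _ 0 0 0 s _ _ _ ht2 hr1' ht3 hs))
  · exact h.swap12.not_middle (q₁ := q₁) (q₂ := q₃) (q₃ := q₂) ⟨⟨hp.1.2, hp.1.1⟩, hp.2⟩
      ⟨hq1.2, hq1.1⟩ hq3 hq2 h1 g1 g3 g2 (by positivity)
      (combo_aux back1 back3 back2 g1.ne' g2.ne' (hmk _ _ _ 0 0 0 s _ _ _ hr1' ht3 ht2 hs))

/-! ### The bound -/

/-- the intersection of two of the bodies: a null set or a nondegenerate segment -/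
theorem Tri.null_or : μH[1] (A ∩ B) = 0 ∨ ∃ a b, a ≠ b ∧ A ∩ B = segment ℝ a b := by
  rcases (A ∩ B).eq_empty_or_nonempty with he | hne
  · left; rw [he, measure_empty]
  obtain ⟨a, b, hab⟩ := inter_segment h.bA h.bB h.dAB hne
  by_cases he : a = b
  · left
    rw [hab, he, segment_same]
    exact measure_singleton _
  · exact Or.inr ⟨a, b, he, hab⟩

theorem Tri.length_le {δ : ℝ} (hδ : ∀ x ∈ C, ∀ y ∈ C, dist x y ≤ δ) :
    μH[1] (A ∩ B) ≤ ENNReal.ofReal δ := by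
  rcases h.null_or with h0 | ⟨a, b, -, hab⟩
  · rw [h0]; exact bot_le
  · rw [hab, hausdorffMeasure_segment, edist_dist]
    apply ENNReal.ofReal_le_ofReal
    have ha : a ∈ A ∩ B := by rw [hab]; exact left_mem_segment ℝ a b
    have hb : b ∈ A ∩ B := by rw [hab]; exact right_mem_segment ℝ a b
    exact hδ a (h.subA ha.1) b (h.subA hb.1)

omit h in
theorem dist_lt_of_interior {δ : ℝ} (hδ : ∀ x ∈ C, ∀ y ∈ C, dist x y ≤ δ) {x y : E2}
    (hx : x ∈ interior C) (hy : y ∈ C) (hne : x ≠ y) : dist x y < δ := by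
  have hlim : Filter.Tendsto (fun s : ℝ => x + s • (x - y)) (nhdsWithin 0 (Ioi 0)) (nhds x) := by
    have : Filter.Tendsto (fun s : ℝ => x + s • (x - y)) (nhds 0) (nhds (x + (0 : ℝ) • (x - y))) := by
      apply Continuous.tendsto
      fun_prop
    rw [zero_smul, add_zero] at this
    exact this.mono_left nhdsWithin_le_nhds
  have hev : ∀ᶠ s : ℝ in nhdsWithin 0 (Ioi 0), x + s • (x - y) ∈ C :=
    hlim.eventually (mem_interior_iff_mem_nhds.1 hx)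
  obtain ⟨s, hsC, hs⟩ := (hev.and self_mem_nhdsWithin).exists
  have hs0 : 0 < s := hs
  have h1 := hδ _ hsC y hy
  have h2 : dist (x + s • (x - y)) y = (1 + s) * dist x y := by
    rw [dist_eq_norm, dist_eq_norm]
    have : x + s • (x - y) - y = (1 + s) • (x - y) := by module
    rw [this, norm_smul, Real.norm_of_nonneg (by linarith)]
  rw [h2] at h1
  have h3 : 0 < dist x y := dist_pos.2 hne
  nlinarith

/-- all three cuts nondegenerate -/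
theorem Tri.bound_nondeg {δ : ℝ} (hδ : ∀ x ∈ C, ∀ y ∈ C, dist x y ≤ δ)
    {a₁ b₁ a₂ b₂ a₃ b₃ : E2} (n1 : a₁ ≠ b₁) (n2 : a₂ ≠ b₂) (n3 : a₃ ≠ b₃)
    (h1 : A ∩ B = segment ℝ a₁ b₁) (h2 : A ∩ D = segment ℝ a₂ b₂)
    (h3 : B ∩ D = segment ℝ a₃ b₃) :
    μH[1] (A ∩ B) + μH[1] (A ∩ D) + μH[1] (B ∩ D) < ENNReal.ofReal (2 * δ) := by
  obtain ⟨p, hp⟩ := h.common_point (by rw [h1]; exact ⟨a₁, left_mem_segment ℝ _ _⟩)
    (by rw [h2]; exact ⟨a₂, left_mem_segment ℝ _ _⟩)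
    (by rw [h3]; exact ⟨a₃, left_mem_segment ℝ _ _⟩)
  obtain ⟨q₁, e1⟩ := h.endpoint hp h1
  obtain ⟨q₂, e2⟩ := h.swap23.endpoint (p := p) ⟨⟨hp.1.1, hp.2⟩, hp.1.2⟩ h2
  obtain ⟨q₃, e3⟩ := h.swap12.swap23.endpoint (p := p) ⟨⟨hp.1.2, hp.2⟩, hp.1.1⟩ h3
  have nn : ∀ a b q : E2, a ≠ b → segment ℝ a b = segment ℝ p q → p ≠ q := by
    rintro a b q hab he rfl
    rw [segment_same] at he
    have ha : a ∈ ({p} : Set E2) := by rw [← he]; exact left_mem_segment ℝ _ _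
    have hb : b ∈ ({p} : Set E2) := by rw [← he]; exact right_mem_segment ℝ _ _
    exact hab (ha.trans hb.symm)
  have m1 := nn _ _ _ n1 (h1.symm.trans e1)
  have m2 := nn _ _ _ n2 (h2.symm.trans e2)
  have m3 := nn _ _ _ n3 (h3.symm.trans e3)
  have hq1 : q₁ ∈ A ∩ B := by rw [e1]; exact right_mem_segment ℝ _ _
  have hq2 : q₂ ∈ A ∩ D := by rw [e2]; exact right_mem_segment ℝ _ _
  have hq3 : q₃ ∈ B ∩ D := by rw [e3]; exact right_mem_segment ℝ _ _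
  have hsub := h.triple_subsingleton
  have k12 : q₁ ≠ q₂ := by
    rintro rfl
    exact m1 (hsub hp ⟨hq1, hq2.2⟩)
  have k13 : q₁ ≠ q₃ := by
    rintro rfl
    exact m1 (hsub hp ⟨hq1, hq3.2⟩)
  have k23 : q₂ ≠ q₃ := by
    rintro rfl
    exact m2 (hsub hp ⟨⟨hq2.1, hq3.1⟩, hq3.2⟩)
  have hmem := h.mem_hull hp hq1 hq2 hq3 m1 m2 m3
  have hlt := sum_dist_lt hmem m1 m2 m3 k12 k13 k23
    (hδ q₁ (h.subA hq1.1) q₂ (h.subA hq2.1)) (hδ q₁ (h.subA hq1.1) q₃ (h.subB hq3.1))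
    (hδ q₂ (h.subA hq2.1) q₃ (h.subB hq3.1))
  rw [e1, e2, e3, hausdorffMeasure_segment, hausdorffMeasure_segment, hausdorffMeasure_segment,
    edist_dist, edist_dist, edist_dist, ← ENNReal.ofReal_add dist_nonneg dist_nonneg,
    ← ENNReal.ofReal_add (by positivity) dist_nonneg]
  exact (ENNReal.ofReal_lt_ofReal_iff_of_nonneg (by positivity)).2 hlt

/-- the total length of the cuts is at most twice the diameter -/
theorem Tri.bound {δ : ℝ} (hδ0 : 0 ≤ δ) (hδ : ∀ x ∈ C, ∀ y ∈ C, dist x y ≤ δ) :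
    μH[1] (A ∩ B) + μH[1] (A ∩ D) + μH[1] (B ∩ D) ≤ ENNReal.ofReal (2 * δ) := by
  have l1 := h.length_le hδ
  have l2 := h.swap23.length_le hδ
  have l3 := h.swap12.swap23.length_le hδ
  have h2δ : ENNReal.ofReal (2 * δ) = ENNReal.ofReal δ + ENNReal.ofReal δ := by
    rw [← ENNReal.ofReal_add hδ0 hδ0]; ring_nf
  rcases h.null_or with h0 | ⟨a₁, b₁, n1, h1⟩
  · rw [h0, zero_add, h2δ]
    exact add_le_add l2 l3
  rcases h.swap23.null_or with h0 | ⟨a₂, b₂, n2, h2⟩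
  · rw [h0, add_zero, h2δ]
    exact add_le_add l1 l3
  rcases h.swap12.swap23.null_or with h0 | ⟨a₃, b₃, n3, h3⟩
  · rw [h0, add_zero, h2δ]
    exact add_le_add l1 l2
  exact (h.bound_nondeg hδ n1 n2 n3 h1 h2 h3).le

/-- strict inequality if there is an interior point in all three pieces -/
theorem Tri.bound_strict {δ : ℝ} (hδ0 : 0 < δ) (hδ : ∀ x ∈ C, ∀ y ∈ C, dist x y ≤ δ) {x : E2}
    (hx : x ∈ interior C) (hx3 : x ∈ A ∩ B ∩ D) :
    μH[1] (A ∩ B) + μH[1] (A ∩ D) + μH[1] (B ∩ D) < ENNReal.ofReal (2 * δ) := by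
  have hlt : ∀ A B D : Set E2, Tri C A B D → x ∈ A ∩ B ∩ D →
      μH[1] (A ∩ B) < ENNReal.ofReal δ := by
    intro A B D h hx3
    rcases h.null_or with h0 | ⟨a, b, n, hab⟩
    · rw [h0]; exact ENNReal.ofReal_pos.2 hδ0
    · obtain ⟨q, hq⟩ := h.endpoint hx3 hab
      rw [hq, hausdorffMeasure_segment, edist_dist]
      have hqm : q ∈ A ∩ B := by rw [hq]; exact right_mem_segment ℝ _ _
      by_cases hne : x = q
      · rw [hne, dist_self, ENNReal.ofReal_zero]; exact ENNReal.ofReal_pos.2 hδ0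
      · exact (ENNReal.ofReal_lt_ofReal_iff hδ0).2 (dist_lt_of_interior hδ hx (h.subA hqm.1) hne)
  have l1 := hlt A B D h hx3
  have l2 := hlt A D B h.swap23 ⟨⟨hx3.1.1, hx3.2⟩, hx3.1.2⟩
  have l3 := hlt B D A h.swap12.swap23 ⟨⟨hx3.1.2, hx3.2⟩, hx3.1.1⟩
  have h2δ : ENNReal.ofReal (2 * δ) = ENNReal.ofReal δ + ENNReal.ofReal δ := by
    rw [← ENNReal.ofReal_add hδ0.le hδ0.le]; ring_nf
  rcases h.null_or with h0 | ⟨a₁, b₁, n1, h1⟩
  · rw [h0, zero_add, h2δ]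
    exact ENNReal.add_lt_add l2 l3
  rcases h.swap23.null_or with h0 | ⟨a₂, b₂, n2, h2⟩
  · rw [h0, add_zero, h2δ]
    exact ENNReal.add_lt_add l1 l3
  rcases h.swap12.swap23.null_or with h0 | ⟨a₃, b₃, n3, h3⟩
  · rw [h0, add_zero, h2δ]
    exact ENNReal.add_lt_add l1 l2
  exact h.bound_nondeg hδ n1 n2 n3 h1 h2 h3

end

end Pool.Agent.K4H73.Greedy
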