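import Pool.Agent.K4H73.Greedy.Longest
import Pool.Agent.K4H73.Greedy.Bound

/-!
# Area of triangles
-/

set_option autoImplicit false

namespace Pool.Agent.K4H73.Greedy

open Set MeasureTheory Filter Topology

/-- the linear functional `a x₀ + b x₁` -/
noncomputable def lin (a b : ℝ) : E2 →L[ℝ] ℝ :=
  a • EuclideanSpace.proj (0 : Fin 2) + b • EuclideanSpace.proj (1 : Fin 2)

@[simp] theorem lin_apply (a b : ℝ) (x : E2) : lin a b x = a * x 0 + b * x 1 := by
  simp [lin]

theorem lin_ne {a b : ℝ} (h : a ≠ 0 ∨ b ≠ 0) : lin a b ≠ 0 := by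
  intro h0
  rcases h with h | h
  · apply h
    have := congrArg (fun f : E2 →L[ℝ] ℝ => f (EuclideanSpace.single 0 1)) h0
    simpa using this
  · apply h
    have := congrArg (fun f : E2 →L[ℝ] ℝ => f (EuclideanSpace.single 1 1)) h0
    simpa using this

/-- a line divides the area -/
theorem vol_split {K : Set E2} (hK : MeasurableSet K) {f : E2 →L[ℝ] ℝ} (hf : f ≠ 0) (c : ℝ) :
    volume K = volume (K ∩ {x | f x ≤ c}) + volume (K ∩ {x | c ≤ f x}) := by
  have hu : K = (K ∩ {x | f x ≤ c}) ∪ (K ∩ {x | c ≤ f x}) := by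
    rw [← inter_union_distrib_left]
    symm
    apply inter_eq_left.2
    intro x _
    exact le_total (f x) c
  conv_lhs => rw [hu]
  rw [measure_union₀ (hK.inter
    (isClosed_le continuous_const f.continuous).measurableSet).nullMeasurableSet]
  refine measure_mono_null ?_ (volume_line hf c)
  rintro x ⟨h1, h2⟩
  exact le_antisymm h1.2 h2.2

/-- the unit square -/
def square : Set E2 := {x | 0 ≤ x 0 ∧ x 0 ≤ 1 ∧ 0 ≤ x 1 ∧ x 1 ≤ 1}

theorem volume_square : volume square = 1 := by
  have h := (PiLp.volume_preserving_ofLp (Fin 2)).measure_preimage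
    (s := Icc (0 : Fin 2 → ℝ) 1) measurableSet_Icc.nullMeasurableSet
  have h2 : (WithLp.ofLp (p := 2) (V := Fin 2 → ℝ)) ⁻¹' Icc (0 : Fin 2 → ℝ) 1 = square := by
    ext x
    simp only [mem_preimage, mem_Icc, Pi.le_def, Fin.forall_fin_two, square, mem_ofPred_eq,
      Pi.zero_apply, Pi.one_apply]
    tauto
  rw [h2] at h
  rw [h, Real.volume_Icc_pi]
  simp

theorem measurable_square : MeasurableSet square := by
  have : square = (WithLp.ofLp (p := 2) (V := Fin 2 → ℝ)) ⁻¹' Icc (0 : Fin 2 → ℝ) 1 := by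
    ext x
    simp only [mem_preimage, mem_Icc, Pi.le_def, Fin.forall_fin_two, square, mem_ofPred_eq,
      Pi.zero_apply, Pi.one_apply]
    tauto
  rw [this]
  exact (PiLp.volume_preserving_ofLp (Fin 2)).measurable measurableSet_Icc

/-- the standard triangle -/
def std : Set E2 := {x | 0 ≤ x 0 ∧ 0 ≤ x 1 ∧ x 0 + x 1 ≤ 1}

theorem volume_std : volume std = 1 / 2 := by
  have h1 := vol_split measurable_square (f := lin 1 1) (lin_ne (Or.inl one_ne_zero)) 1
  have h2 : square ∩ {x | lin 1 1 x ≤ 1} = std := by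
    ext x
    simp only [square, std, mem_inter_iff, mem_ofPred_eq, lin_apply, one_mul]
    constructor
    · rintro ⟨⟨a, b, c, d⟩, e⟩; exact ⟨a, c, e⟩
    · rintro ⟨a, b, c⟩; exact ⟨⟨a, by linarith, b, by linarith⟩, c⟩
  have h3 : square ∩ {x | 1 ≤ lin 1 1 x} = (fun x : E2 => !₂[1, 1] - x) ⁻¹' std := by
    ext x
    simp only [square, std, mem_inter_iff, mem_ofPred_eq, lin_apply, one_mul, mem_preimage]
    have e0 : (!₂[(1 : ℝ), 1] - x) 0 = 1 - x 0 := by simp
    have e1 : (!₂[(1 : ℝ), 1] - x) 1 = 1 - x 1 := by simp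
    rw [e0, e1]
    constructor
    · rintro ⟨⟨a, b, c, d⟩, e⟩; exact ⟨by linarith, by linarith, by linarith⟩
    · rintro ⟨a, b, c⟩; exact ⟨⟨by linarith, by linarith, by linarith, by linarith⟩, by linarith⟩
  have hm : MeasurableSet std := by
    rw [← h2]
    exact measurable_square.inter (isClosed_le (lin 1 1).continuous continuous_const).measurableSet
  have h4 : volume ((fun x : E2 => !₂[1, 1] - x) ⁻¹' std) = volume std :=
    (volume.measurePreserving_sub_left (!₂[1, 1] : E2)).measure_preimage hm.nullMeasurableSet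
  rw [h2, h3, h4, volume_square, ← two_mul] at h1
  rw [ENNReal.eq_div_iff (by norm_num) (by norm_num), ← h1]

/-- the triangle with vertices `0`, `p`, `q` -/
def tri (p q : E2) : Set E2 := convexHull ℝ {0, p, q}

theorem mem_tri {p q x : E2} :
    x ∈ tri p q ↔ ∃ s t : ℝ, 0 ≤ s ∧ 0 ≤ t ∧ s + t ≤ 1 ∧ x = s • p + t • q := by
  constructor
  · intro hx
    obtain ⟨l₁, l₂, l₃, h1, h2, h3, hs, hp⟩ := mem_triple hx
    exact ⟨l₂, l₃, h2, h3, by linarith, by rw [hp]; simp⟩
  · rintro ⟨s, t, hs, ht, hst, rfl⟩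
    have h := (convex_convexHull ℝ ({0, p, q} : Set E2)).sum_mem (t := Finset.univ)
      (w := ![1 - s - t, s, t]) (z := ![0, p, q]) (by
        intro i _
        fin_cases i
        · show 0 ≤ 1 - s - t; linarith
        · exact hs
        · exact ht) (by
        simp [Fin.sum_univ_three]; ring) (by
        intro i _
        apply subset_convexHull
        fin_cases i <;> simp)
    simp only [Fin.sum_univ_three, Matrix.cons_val_zero, Matrix.cons_val_one, Matrix.cons_val,
      smul_zero, zero_add] at h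
    exact h

theorem isCompact_tri (p q : E2) : IsCompact (tri p q) :=
  (toFinite ({0, p, q} : Set E2)).isCompact_convexHull ℝ

/-- the linear map which sends the standard basis to `p`, `q` -/
noncomputable def linMap (p q : E2) : E2 →ₗ[ℝ] E2 :=
  (EuclideanSpace.proj (0 : Fin 2)).toLinearMap.smulRight p +
    (EuclideanSpace.proj (1 : Fin 2)).toLinearMap.smulRight q

theorem linMap_apply (p q x : E2) : linMap p q x = x 0 • p + x 1 • q := by
  simp [linMap]

theorem det_linMap (p q : E2) : LinearMap.det (linMap p q) = p 0 * q 1 - p 1 * q 0 := by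
  rw [← LinearMap.det_toMatrix (EuclideanSpace.basisFun (Fin 2) ℝ).toBasis, Matrix.det_fin_two]
  simp [LinearMap.toMatrix_apply, linMap_apply]
  ring

theorem tri_eq_image (p q : E2) : tri p q = linMap p q '' std := by
  ext x
  rw [mem_tri]
  constructor
  · rintro ⟨s, t, hs, ht, hst, rfl⟩
    refine ⟨!₂[s, t], ⟨by simpa using hs, by simpa using ht, by simpa using hst⟩, ?_⟩
    rw [linMap_apply]; simp
  · rintro ⟨y, ⟨h1, h2, h3⟩, rfl⟩
    exact ⟨y 0, y 1, h1, h2, h3, linMap_apply p q y⟩

theorem volume_tri (p q : E2) :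
    volume (tri p q) = ENNReal.ofReal (|p 0 * q 1 - p 1 * q 0| / 2) := by
  rw [tri_eq_image, Measure.addHaar_image_linearMap, volume_std, det_linMap]
  rw [div_eq_mul_inv |p 0 * q 1 - p 1 * q 0| 2, ENNReal.ofReal_mul (abs_nonneg _),
    ENNReal.ofReal_inv_of_pos (by norm_num)]
  simp

/-- the boundary of a triangle has finite length -/
theorem length_tri {p q : E2} (h : p 0 * q 1 - p 1 * q 0 ≠ 0) : μH[1] (frontier (tri p q)) < ⊤ := by
  set D := p 0 * q 1 - p 1 * q 0 with hD
  let f : E2 →L[ℝ] ℝ := lin (q 1 / D) (-(q 0) / D)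
  let g : E2 →L[ℝ] ℝ := lin (-(p 1) / D) (p 0 / D)
  have hrep : ∀ x : E2, x = f x • p + g x • q := by
    intro x
    ext i
    have : (f x • p + g x • q) i = f x * p i + g x * q i := by simp
    rw [this]
    simp only [f, g, lin_apply]
    fin_cases i
    · simp only [Fin.zero_eta]
      field_simp
      rw [hD]; ring
    · simp only [Fin.mk_one]
      field_simp
      rw [hD]; ring
  have hfp : ∀ s t : ℝ, f (s • p + t • q) = s := by
    intro s t
    have hp : f p = 1 := by
      simp only [f, lin_apply]; field_simp; rw [hD]; ring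
    have hq : f q = 0 := by
      simp only [f, lin_apply]; field_simp; ring
    rw [map_add, map_smul, map_smul, hp, hq]; simp
  have hgp : ∀ s t : ℝ, g (s • p + t • q) = t := by
    intro s t
    have hp : g p = 0 := by
      simp only [g, lin_apply]; field_simp; ring
    have hq : g q = 1 := by
      simp only [g, lin_apply]; field_simp; rw [hD]; ring
    rw [map_add, map_smul, map_smul, hp, hq]; simp
  have hsub : frontier (tri p q) ⊆ segment ℝ 0 p ∪ segment ℝ 0 q ∪ segment ℝ p q := by
    intro x hx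
    have hxt : x ∈ tri p q := (isCompact_tri p q).isClosed.frontier_subset hx
    obtain ⟨s, t, hs, ht, hst, hxe⟩ := mem_tri.1 hxt
    rcases hs.eq_or_lt with hs0 | hs0
    · left; right
      rw [segment_eq_image']
      refine ⟨t, ⟨ht, by linarith⟩, ?_⟩
      show 0 + t • (q - 0) = x
      rw [hxe, ← hs0]; simp
    rcases ht.eq_or_lt with ht0 | ht0
    · left; left
      rw [segment_eq_image']
      refine ⟨s, ⟨hs, by linarith⟩, ?_⟩
      show 0 + s • (p - 0) = x
      rw [hxe, ← ht0]; simp
    rcases hst.eq_or_lt with hst0 | hst0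
    · right
      exact ⟨s, t, hs, ht, hst0, hxe.symm⟩
    · exfalso
      apply hx.2
      rw [mem_interior]
      refine ⟨{y | 0 < f y} ∩ {y | 0 < g y} ∩ {y | f y + g y < 1}, ?_, ?_, ?_⟩
      · rintro y ⟨⟨h1, h2⟩, h3⟩
        exact mem_tri.2 ⟨f y, g y, le_of_lt h1, le_of_lt h2, le_of_lt h3, hrep y⟩
      · exact ((isOpen_lt continuous_const f.continuous).inter
          (isOpen_lt continuous_const g.continuous)).inter
          (isOpen_lt (f.continuous.add g.continuous) continuous_const)
      · refine ⟨⟨?_, ?_⟩, ?_⟩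
        · show 0 < f x; rw [hxe, hfp]; exact hs0
        · show 0 < g x; rw [hxe, hgp]; exact ht0
        · show f x + g x < 1; rw [hxe, hfp, hgp]; exact hst0
  refine lt_of_le_of_lt (measure_mono hsub) ?_
  refine lt_of_le_of_lt (measure_union_le _ _) ?_
  refine ENNReal.add_lt_top.2 ⟨lt_of_le_of_lt (measure_union_le _ _) (ENNReal.add_lt_top.2 ⟨?_, ?_⟩), ?_⟩
  all_goals
    rw [hausdorffMeasure_segment]
    exact edist_lt_top _ _

end Pool.Agent.K4H73.Greedy
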