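import Mathlib

/-!
# Convex equipartitions of planar convex bodies: definitions
-/

set_option autoImplicit false

namespace Pool.Agent.K4H73.Greedy

open Set MeasureTheory

/-- the Euclidean plane -/
abbrev E2 := EuclideanSpace ℝ (Fin 2)

/-- convex body: compact, convex, with nonempty interior -/
structure IsConvexBody (K : Set E2) : Prop where
  convex : Convex ℝ K
  compact : IsCompact K
  interior_nonempty : (interior K).Nonempty

/-- the perimeter: the length (one-dimensional Hausdorff measure) of the boundary -/
noncomputable def perimeter (K : Set E2) : ENNReal := μH[1] (frontier K)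

/-- the total perimeter of a family of bodies -/
noncomputable def totalPerimeter {n : ℕ} (P : Fin n → Set E2) : ENNReal := ∑ i, perimeter (P i)

/-- convex equipartition of `C` into `n` pieces -/
structure IsEquipartition (C : Set E2) {n : ℕ} (P : Fin n → Set E2) : Prop where
  body : ∀ i, IsConvexBody (P i)
  disj : ∀ i j, i ≠ j → Disjoint (interior (P i)) (interior (P j))
  union : ⋃ i, P i = C
  area : ∀ i, volume (P i) = volume C / n

/-- no point of the interior of `C` belongs to three or more of the pieces -/
def NonCrossing (C : Set E2) {n : ℕ} (P : Fin n → Set E2) : Prop :=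
  ∀ x ∈ interior C, ¬ ∃ i j k, i ≠ j ∧ i ≠ k ∧ j ≠ k ∧ x ∈ P i ∧ x ∈ P j ∧ x ∈ P k

/-- `P` is an equipartition of `C` whose total perimeter is maximal -/
def IsMaximal (C : Set E2) {n : ℕ} (P : Fin n → Set E2) : Prop :=
  IsEquipartition C P ∧ ∀ Q : Fin n → Set E2, IsEquipartition C Q →
    totalPerimeter Q ≤ totalPerimeter P

/-- the chord from `a` to `b` of the convex body `K` splits `K` into the pieces `P` and `R`: the
points `a`, `b` are on the boundary, the chord is the intersection of `K` with a line, and the pieces
are the parts of `K` on the two sides of this line -/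
def Splits (K : Set E2) (a b : E2) (P R : Set E2) : Prop :=
  a ∈ frontier K ∧ b ∈ frontier K ∧ ∃ (f : E2 →L[ℝ] ℝ) (c : ℝ), f ≠ 0 ∧
    K ∩ {x | f x = c} = segment ℝ a b ∧ P = K ∩ {x | f x ≤ c} ∧ R = K ∩ {x | c ≤ f x}

/-- one step of the greedy procedure: among all chords of `K` which cut off a piece of area `α`,
choose one of maximal length, and let `P` be the piece of area `α` and `R` the other piece -/
def GreedyStep (K : Set E2) (α : ENNReal) (P R : Set E2) : Prop :=
  ∃ a b, Splits K a b P R ∧ volume P = α ∧
    ∀ a' b' P' R', Splits K a' b' P' R' → volume P' = α → dist a' b' ≤ dist a b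

/-- `P` is a greedy partition of `C` into `n` pieces -/
def IsGreedy (C : Set E2) {n : ℕ} (P : Fin n → Set E2) : Prop :=
  ∃ K : ℕ → Set E2, K 0 = C ∧
    (∀ j : Fin n, j.val + 1 < n → GreedyStep (K j) (volume C / n) (P j) (K (j + 1))) ∧
    ∀ j : Fin n, j.val + 1 = n → P j = K j

end Pool.Agent.K4H73.Greedy
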