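import Pool.Agent.K4H73.Greedy.Hexagon

/-!
# The greedy procedure fails for the hexagon
-/

set_option autoImplicit false

namespace Pool.Agent.K4H73.Greedy

open Set MeasureTheory Filter Topology

/-! ### Equipartitions into three pieces -/

theorem IsEquipartition.tri {C : Set E2} (hC : Convex ℝ C) {P : Fin 3 → Set E2}
    (h : IsEquipartition C P) : Tri C (P 0) (P 1) (P 2) := by
  refine ⟨hC, h.body 0, h.body 1, h.body 2, h.disj 0 1 (by decide), h.disj 0 2 (by decide),
    h.disj 1 2 (by decide), ?_⟩
  rw [← h.union]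
  ext x
  simp only [mem_union, mem_iUnion, Fin.exists_fin_succ, Fin.succ_zero_eq_one, Fin.succ_one_eq_two]
  constructor
  · rintro ((h | h) | h)
    · exact Or.inl h
    · exact Or.inr (Or.inl h)
    · exact Or.inr (Or.inr (Or.inl h))
  · rintro (h | h | h | h)
    · exact Or.inl (Or.inl h)
    · exact Or.inl (Or.inr h)
    · exact Or.inr h
    · obtain ⟨i, -⟩ := h; exact i.elim0

theorem total_eq {P : Fin 3 → Set E2} :
    totalPerimeter P = perimeter (P 0) + perimeter (P 1) + perimeter (P 2) := by
  rw [totalPerimeter, Fin.sum_univ_three]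

theorem total_le {P : Fin 3 → Set E2} (h : IsEquipartition hex P) :
    totalPerimeter P ≤ perimeter hex + 4 := by
  have ht := h.tri convex_hex
  rw [total_eq, ht.total]
  have := ht.bound zero_le_one hex_diam
  have h2 : (2 : ENNReal) * ENNReal.ofReal (2 * 1) = 4 := by
    rw [mul_one, show ENNReal.ofReal 2 = 2 by simp]; norm_num
  rw [← h2]
  gcongr

theorem total_lt {P : Fin 3 → Set E2} (h : IsEquipartition hex P)
    (h2 : μH[1] (P 0 ∩ P 1) + μH[1] (P 0 ∩ P 2) + μH[1] (P 1 ∩ P 2) < 2) :
    totalPerimeter P < perimeter hex + 4 := by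
  have ht := h.tri convex_hex
  rw [total_eq, ht.total]
  refine ENNReal.add_lt_add_left perimeter_hex ?_
  have h3 : (4 : ENNReal) = 2 * 2 := by norm_num
  rw [h3]
  exact ENNReal.mul_lt_mul_right (by norm_num) (by norm_num) h2

/-! ### The best partition -/

/-- the partition by the two chords from `v0` -/
def best : Fin 3 → Set E2 := ![hex ∩ {x | 0 ≤ lin 416 87 x},
  hex ∩ ({x | lin 416 87 x ≤ 0} ∩ {x | lin (-416) 87 x ≤ 0}), hex ∩ {x | 0 ≤ lin (-416) 87 x}]

theorem pos13 : ENNReal.ofReal (13 / 64) ≠ 0 := by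
  simp only [ne_eq, ENNReal.ofReal_eq_zero, not_le]
  norm_num

theorem disj_of_sep {A B : Set E2} {f : E2 →L[ℝ] ℝ} (hf : f ≠ 0) {c : ℝ} (hA : ∀ x ∈ A, f x ≤ c)
    (hB : ∀ x ∈ B, c ≤ f x) : Disjoint (interior A) (interior B) := by
  rw [Set.disjoint_left]
  intro x hx hx'
  have h1 := lt_of_interior hf hA hx
  have h2 := gt_of_interior hf hB hx'
  linarith

theorem best_equipartition : IsEquipartition hex best := by
  have c0 : IsClosed {x | 0 ≤ lin 416 87 x} := isClosed_le continuous_const (lin _ _).continuous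
  have c1 : IsClosed {x | lin 416 87 x ≤ 0} := isClosed_le (lin _ _).continuous continuous_const
  have c2 : IsClosed {x | 0 ≤ lin (-416) 87 x} := isClosed_le continuous_const (lin _ _).continuous
  have c3 : IsClosed {x | lin (-416) 87 x ≤ 0} := isClosed_le (lin _ _).continuous continuous_const
  have b0 : IsConvexBody (best 0) := isConvexBody_of_volume (compact_hex.inter_right c0)
    (convex_hex.inter (half_ge _ _ _)) (ne_of_eq_of_ne vol0 pos13)
  have b1 : IsConvexBody (best 1) := isConvexBody_of_volume (compact_hex.inter_right (c1.inter c3))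
    (convex_hex.inter ((half_le _ _ _).inter (half_le _ _ _))) (ne_of_eq_of_ne vol1 pos13)
  have b2 : IsConvexBody (best 2) := isConvexBody_of_volume (compact_hex.inter_right c2)
    (convex_hex.inter (half_ge _ _ _)) (ne_of_eq_of_ne vol2 pos13)
  have d01 : Disjoint (interior (best 0)) (interior (best 1)) :=
    (disj_of_sep (f := lin 416 87) (lin_ne (Or.inl (by norm_num))) (c := 0)
      (fun x (hx : x ∈ hex ∩ _) => hx.2.1) (fun x (hx : x ∈ hex ∩ _) => hx.2)).symm
  have d12 : Disjoint (interior (best 1)) (interior (best 2)) :=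
    disj_of_sep (f := lin (-416) 87) (lin_ne (Or.inl (by norm_num))) (c := 0)
      (fun x (hx : x ∈ hex ∩ _) => hx.2.2) (fun x (hx : x ∈ hex ∩ _) => hx.2)
  have d02 : Disjoint (interior (best 0)) (interior (best 2)) := by
    refine (disj_of_sep (f := lin 1 0) (lin_ne (Or.inl (by norm_num))) (c := 0) ?_ ?_).symm
    · rintro x ⟨hx, hx2⟩
      obtain ⟨i1, i2, -⟩ := ineqs hx
      simp only [mem_ofPred_eq, lin_apply] at hx2 ⊢
      linarith
    · rintro x ⟨hx, hx2⟩
      obtain ⟨i1, i2, -⟩ := ineqs hx
      simp only [mem_ofPred_eq, lin_apply] at hx2 ⊢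
      linarith
  refine ⟨?_, ?_, ?_, ?_⟩
  · intro i
    fin_cases i
    · exact b0
    · exact b1
    · exact b2
  · intro i j hij
    fin_cases i <;> fin_cases j
    · exact absurd rfl hij
    · exact d01
    · exact d02
    · exact d01.symm
    · exact absurd rfl hij
    · exact d12
    · exact d02.symm
    · exact d12.symm
    · exact absurd rfl hij
  · apply Subset.antisymm
    · apply iUnion_subset
      intro i
      fin_cases i <;> exact inter_subset_left
    · intro x hx
      rw [mem_iUnion]
      rcases le_total 0 (lin 416 87 x) with h | h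
      · exact ⟨0, hx, h⟩
      · rcases le_total 0 (lin (-416) 87 x) with h' | h'
        · exact ⟨2, hx, h'⟩
        · exact ⟨1, hx, h, h'⟩
  · intro i
    rw [third]
    fin_cases i
    · exact vol0
    · exact vol1
    · exact vol2

theorem best_total : perimeter hex + 4 ≤ totalPerimeter best := by
  rw [total_eq, (best_equipartition.tri convex_hex).total]
  have h1 : 1 ≤ μH[1] (best 0 ∩ best 1) := by
    have hsub : segment ℝ 0 v2 ⊆ best 0 ∩ best 1 := by
      apply (((best_equipartition.body 0).convex).inter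
        ((best_equipartition.body 1).convex)).segment_subset
      · refine ⟨⟨vert0, ?_⟩, vert0, ?_, ?_⟩ <;> simp
      · refine ⟨⟨vert2, ?_⟩, vert2, ?_, ?_⟩ <;>
        simp only [mem_ofPred_eq, lin_apply, v2_0, v2_1] <;> norm_num
    calc (1 : ENNReal) = μH[1] (segment ℝ (0 : E2) v2) := by
          rw [hausdorffMeasure_segment, edist_dist, dist_eq_one]
          · simp
          · have e0 : (0 : E2) 0 = 0 := rfl
            have e1 : (0 : E2) 1 = 0 := rfl
            rw [e0, e1, v2_0, v2_1]; norm_num
      _ ≤ _ := measure_mono hsub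
  have h2 : 1 ≤ μH[1] (best 1 ∩ best 2) := by
    have hsub : segment ℝ 0 v3 ⊆ best 1 ∩ best 2 := by
      apply (((best_equipartition.body 1).convex).inter
        ((best_equipartition.body 2).convex)).segment_subset
      · refine ⟨⟨vert0, ?_, ?_⟩, vert0, ?_⟩ <;> simp
      · refine ⟨⟨vert3, ?_, ?_⟩, vert3, ?_⟩ <;>
        simp only [mem_ofPred_eq, lin_apply, v3_0, v3_1] <;> norm_num
    calc (1 : ENNReal) = μH[1] (segment ℝ (0 : E2) v3) := by
          rw [hausdorffMeasure_segment, edist_dist, dist_eq_one]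
          · simp
          · have e0 : (0 : E2) 0 = 0 := rfl
            have e1 : (0 : E2) 1 = 0 := rfl
            rw [e0, e1, v3_0, v3_1]; norm_num
      _ ≤ _ := measure_mono hsub
  gcongr
  calc (4 : ENNReal) = 2 * (1 + 0 + 1) := by norm_num
    _ ≤ _ := by
      gcongr
      exact bot_le

theorem best_maximal : IsMaximal hex best :=
  ⟨best_equipartition, fun _ hQ => (total_le hQ).trans best_total⟩

theorem maximal_ge {Q : Fin 3 → Set E2} (hQ : IsMaximal hex Q) :
    perimeter hex + 4 ≤ totalPerimeter Q := best_total.trans (hQ.2 _ best_equipartition)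

theorem maximal_nonCrossing {Q : Fin 3 → Set E2} (hQ : IsMaximal hex Q) : NonCrossing hex Q := by
  rintro x hx ⟨i, j, k, hij, hik, hjk, hi, hj, hk⟩
  have key : ∀ i j k m : Fin 3, i ≠ j → i ≠ k → j ≠ k → m = i ∨ m = j ∨ m = k := by decide
  have hall : ∀ m : Fin 3, x ∈ Q m := by
    intro m
    rcases key i j k m hij hik hjk with rfl | rfl | rfl <;> assumption
  have h := (hQ.1.tri convex_hex).bound_strict one_pos hex_diam hx ⟨⟨hall 0, hall 1⟩, hall 2⟩
  rw [mul_one, show ENNReal.ofReal 2 = 2 by simp] at h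
  exact absurd (maximal_ge hQ) (not_le.2 (total_lt hQ.1 h))

/-! ### The greedy partition -/

/-- the piece cut off in the first step -/
def top : Set E2 := hex ∩ {x | lin 0 (-1) x ≤ 13 / 32}

/-- the remaining part -/
def rest : Set E2 := hex ∩ {x | 13 / 32 ≤ lin 0 (-1) x}

theorem splits_top : Splits hex v1 v4 top rest := by
  refine ⟨⟨subset_closure vert1, fun hi => ?_⟩, ⟨subset_closure vert4, fun hi => ?_⟩,
    lin 0 (-1), 13 / 32, lin_ne (Or.inr (by norm_num)), ?_, rfl, rfl⟩
  · have := lt_of_interior (f := lin 13 16) (lin_ne (Or.inl (by norm_num))) (c := 0)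
      (fun x hx => by rw [lin_apply]; exact (ineqs hx).1) hi
    rw [lin_apply, v1_0, v1_1] at this
    norm_num at this
  · have := lt_of_interior (f := lin (-13) 16) (lin_ne (Or.inl (by norm_num))) (c := 0)
      (fun x hx => by rw [lin_apply]; exact (ineqs hx).2.1) hi
    rw [lin_apply, v4_0, v4_1] at this
    norm_num at this
  · apply Subset.antisymm
    · rintro x ⟨hx, hxc⟩
      obtain ⟨i1, i2, -⟩ := ineqs hx
      simp only [mem_ofPred_eq, lin_apply] at hxc
      have hx1 : x 1 = -13 / 32 := by linarith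
      rw [hx1] at i1 i2
      refine ⟨1 / 2 + x 0, 1 / 2 - x 0, by linarith, by linarith, by ring, ?_⟩
      ext i
      have : ((1 / 2 + x 0) • v1 + (1 / 2 - x 0) • v4) i =
        (1 / 2 + x 0) * v1 i + (1 / 2 - x 0) * v4 i := by simp
      rw [this]
      fin_cases i
      · simp only [Fin.zero_eta, v1_0, v4_0]; ring
      · simp only [Fin.mk_one, v1_1, v4_1, hx1]; ring
    · apply (convex_hex.inter (convex_hyperplane (lin 0 (-1)).toLinearMap.isLinear
        (13 / 32))).segment_subset
      · refine ⟨vert1, ?_⟩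
        show lin 0 (-1) v1 = 13 / 32
        rw [lin_apply, v1_0, v1_1]; norm_num
      · refine ⟨vert4, ?_⟩
        show lin 0 (-1) v4 = 13 / 32
        rw [lin_apply, v4_0, v4_1]; norm_num

theorem dist_v1_v4 : dist v1 v4 = 1 := by
  apply dist_eq_one
  rw [v1_0, v1_1, v4_0, v4_1]; norm_num

theorem step_one : GreedyStep hex (volume hex / (3 : ℕ)) top rest := by
  refine ⟨v1, v4, splits_top, ?_, ?_⟩
  · rw [third]; exact volTop
  · rintro a b P R ⟨ha, hb, -⟩ -
    rw [dist_v1_v4]
    exact hex_diam a (compact_hex.isClosed.frontier_subset ha) b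
      (compact_hex.isClosed.frontier_subset hb)

theorem body_rest : IsConvexBody rest := splits_top.right body_hex (by
  rw [rest, volBottom]
  simp only [ne_eq, ENNReal.ofReal_eq_zero, not_le]
  norm_num)

theorem long_aux {s t : ℝ} (hs0 : 0 ≤ s) (hst : s ≤ t) (ht1 : t ≤ 6 / 10)
    (h : 1 ≤ (1 - (s + t) / 2) ^ 2 + (s - t) ^ 2) : s = 0 ∧ t = 0 := by
  have ht0 : 0 ≤ t := hs0.trans hst
  have e1 : (1 - (s + t) / 2) ^ 2 = 1 - (s + t) * (1 - (s + t) / 4) := by ring
  have e2 : (s - t) ^ 2 = t * t - s * (2 * t - s) := by ring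
  have e3 : 0 ≤ s * (2 * t - s) := mul_nonneg hs0 (by linarith)
  have e4 : t * (7 / 10) ≤ (s + t) * (1 - (s + t) / 4) :=
    mul_le_mul (by linarith) (by linarith) (by norm_num) (by linarith)
  have e5 : t * t ≤ t * (6 / 10) := mul_le_mul_of_nonneg_left ht1 ht0
  have e6 : t ≤ 0 := by
    rw [e1, e2] at h
    linarith
  constructor <;> linarith

/-- long chords of `rest` are horizontal -/
theorem long_chord {a b : E2} (ha : a ∈ rest) (hb : b ∈ rest) (h : 1 ≤ dist a b) :
    a 1 = -13 / 32 ∧ b 1 = -13 / 32 := by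
  obtain ⟨ha, ha2⟩ := ha
  obtain ⟨hb, hb2⟩ := hb
  simp only [mem_ofPred_eq, lin_apply] at ha2 hb2
  obtain ⟨i1, i2, i3, i4, i5, i6⟩ := ineqs ha
  obtain ⟨j1, j2, j3, j4, j5, j6⟩ := ineqs hb
  have h' : 1 ≤ (a 0 - b 0) ^ 2 + (a 1 - b 1) ^ 2 := by
    by_contra hcon
    push Not at hcon
    exact absurd h (not_le.2 (dist_lt_one hcon))
  have e1 : a 0 - b 0 ≤ 1 - ((-13 / 32 - a 1) + (-13 / 32 - b 1)) / 2 := by linarith
  have e2 : -(1 - ((-13 / 32 - a 1) + (-13 / 32 - b 1)) / 2) ≤ a 0 - b 0 := by linarith
  have e3 := sq_le_sq' e2 e1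
  have e4 : (a 1 - b 1) ^ 2 = ((-13 / 32 - a 1) - (-13 / 32 - b 1)) ^ 2 := by ring
  rw [e4] at h'
  have h5 := h'.trans (add_le_add_left e3 _)
  rcases le_total (-13 / 32 - a 1) (-13 / 32 - b 1) with hst | hst
  · obtain ⟨k1, k2⟩ := long_aux (by linarith) hst (by linarith) h5
    constructor <;> linarith
  · obtain ⟨k1, k2⟩ := long_aux (s := -13 / 32 - b 1) (t := -13 / 32 - a 1) (by linarith) hst
      (by linarith) (by
        have e7 : (1 - ((-13 / 32 - b 1) + (-13 / 32 - a 1)) / 2) ^ 2 +
          ((-13 / 32 - b 1) - (-13 / 32 - a 1)) ^ 2 =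
          (1 - ((-13 / 32 - a 1) + (-13 / 32 - b 1)) / 2) ^ 2 +
          ((-13 / 32 - a 1) - (-13 / 32 - b 1)) ^ 2 := by ring
        rw [e7]; exact h5)
    constructor <;> linarith

theorem chord_lt {P R : Set E2} {a b : E2} (h : Splits rest a b P R)
    (hv : volume P = volume hex / (3 : ℕ)) : dist a b < 1 := by
  by_contra hcon
  push Not at hcon
  have ha : a ∈ rest := body_rest.closed.frontier_subset h.1
  have hb : b ∈ rest := body_rest.closed.frontier_subset h.2.1
  obtain ⟨ha1, hb1⟩ := long_chord ha hb hcon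
  obtain ⟨-, -, f, c, hf, hseg, hP, hR⟩ := h
  have hne : a ≠ b := by
    rintro rfl
    rw [dist_self] at hcon
    linarith
  have fa : f a = c := by
    have : a ∈ rest ∩ {x | f x = c} := by rw [hseg]; exact left_mem_segment ℝ _ _
    exact this.2
  have fb : f b = c := by
    have : b ∈ rest ∩ {x | f x = c} := by rw [hseg]; exact right_mem_segment ℝ _ _
    exact this.2
  obtain ⟨r, hr⟩ := exists_smul_of_ker (f := lin 0 (-1)) (g := f)
    (lin_ne (Or.inr (by norm_num))) (sub_ne_zero.2 hne.symm)
    (by rw [map_sub, lin_apply, lin_apply, ha1, hb1]; ring) (by rw [map_sub, fa, fb, sub_self])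
  have hc : c = r * (13 / 32) := by
    rw [← fa, hr, smul_apply, lin_apply, ha1, smul_eq_mul]; ring
  have hr0 : r ≠ 0 := by
    rintro rfl
    apply hf
    rw [hr, zero_smul]
  rw [third] at hv
  rcases lt_or_gt_of_ne hr0 with hr1 | hr1
  · -- `P` is everything
    have hPr : P = rest := by
      rw [hP]
      apply inter_eq_left.2
      rintro x ⟨-, hx⟩
      simp only [mem_ofPred_eq] at hx
      show f x ≤ c
      rw [hr, smul_apply, smul_eq_mul, hc]
      nlinarith
    rw [hPr, rest, volBottom, ENNReal.ofReal_eq_ofReal_iff (by norm_num) (by norm_num)] at hv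
    norm_num at hv
  · -- `P` is null
    have hP0 : volume P = 0 := by
      refine measure_mono_null ?_ (volume_line (f := lin 0 (-1))
        (lin_ne (Or.inr (by norm_num))) (13 / 32))
      rw [hP]
      rintro x ⟨⟨-, hx⟩, hx2⟩
      simp only [mem_ofPred_eq] at hx
      have hx2' : f x ≤ c := hx2
      rw [hr, smul_apply, smul_eq_mul, hc] at hx2'
      exact le_antisymm (le_of_mul_le_mul_left hx2' hr1) hx
    rw [hP0] at hv
    exact pos13 hv.symm

/-- **The greedy procedure fails for the hexagon.** -/
theorem greedy_fails : ∃ P : Fin 3 → Set E2, IsGreedy hex P ∧ IsEquipartition hex P ∧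
    totalPerimeter P < totalPerimeter best := by
  have h26 : volume rest = ENNReal.ofReal (13 / 64) + ENNReal.ofReal (13 / 64) := by
    rw [rest, volBottom, ← ENNReal.ofReal_add (by norm_num) (by norm_num)]; norm_num
  obtain ⟨P, R, hPR⟩ := exists_greedyStep body_rest (α := volume hex / (3 : ℕ))
    (by rw [third]; exact pos13) (by
      rw [third, h26]
      exact ENNReal.lt_add_right ENNReal.ofReal_ne_top pos13)
  have hPR' := hPR
  obtain ⟨a, b, hs, hvP, hmax⟩ := hPR
  have hvR : volume R = ENNReal.ofReal (13 / 64) := by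
    have h1 := hs.add body_rest
    rw [h26, hvP, third] at h1
    exact (ENNReal.add_right_inj ENNReal.ofReal_ne_top).1 h1
  have hvP' : volume P = ENNReal.ofReal (13 / 64) := by rw [hvP, third]
  have bP : IsConvexBody P := hs.left body_rest (by rw [hvP']; exact pos13)
  have bR : IsConvexBody R := hs.right body_rest (by rw [hvR]; exact pos13)
  have bT : IsConvexBody top := splits_top.left body_hex (by rw [top, volTop]; exact pos13)
  have hPs : P ⊆ rest := by rw [← hs.union]; exact subset_union_left
  have hRs : R ⊆ rest := by rw [← hs.union]; exact subset_union_right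
  have dTP : Disjoint (interior top) (interior P) :=
    splits_top.disjoint.mono_right (interior_mono hPs)
  have dTR : Disjoint (interior top) (interior R) :=
    splits_top.disjoint.mono_right (interior_mono hRs)
  have hE : IsEquipartition hex ![top, P, R] := by
    refine ⟨?_, ?_, ?_, ?_⟩
    · intro i
      fin_cases i
      · exact bT
      · exact bP
      · exact bR
    · intro i j hij
      fin_cases i <;> fin_cases j
      · exact absurd rfl hij
      · exact dTP
      · exact dTR
      · exact dTP.symm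
      · exact absurd rfl hij
      · exact hs.disjoint
      · exact dTR.symm
      · exact hs.disjoint.symm
      · exact absurd rfl hij
    · have h1 := splits_top.union
      have h2 := hs.union
      ext x
      rw [← h1, ← h2]
      simp only [mem_iUnion, mem_union, Fin.exists_fin_succ]
      constructor
      · rintro (h | h | h | ⟨i, -⟩)
        · exact Or.inl h
        · exact Or.inr (Or.inl h)
        · exact Or.inr (Or.inr h)
        · exact i.elim0
      · rintro (h | h | h)
        · exact Or.inl h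
        · exact Or.inr (Or.inl h)
        · exact Or.inr (Or.inr (Or.inl h))
    · intro i
      rw [third]
      fin_cases i
      · exact volTop
      · exact hvP'
      · exact hvR
  refine ⟨![top, P, R], ⟨![hex, rest, R] ∘ fun j => if h : j < 3 then ⟨j, h⟩ else 2, ?_, ?_, ?_⟩, hE,
    lt_of_lt_of_le (total_lt hE ?_) best_total⟩
  · rfl
  · intro j hj
    fin_cases j
    · exact step_one
    · exact hPR'
    · exact absurd hj (by decide)
  · intro j hj
    fin_cases j
    · exact absurd hj (by decide)
    · exact absurd hj (by decide)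
    · rfl
  · -- the length of the cuts
    show μH[1] (top ∩ P) + μH[1] (top ∩ R) + μH[1] (P ∩ R) < 2
    have ht := hE.tri convex_hex
    have htri : μH[1] (top ∩ P ∩ (top ∩ R)) = 0 := by
      refine measure_mono_null ?_ (ht.triple_subsingleton.measure_zero _)
      rintro x ⟨h1, h2⟩
      exact ⟨h1, h2.2⟩
    have hmR : MeasurableSet (top ∩ R) := bT.closed.measurableSet.inter bR.closed.measurableSet
    have h1 : μH[1] (top ∩ P) + μH[1] (top ∩ R) ≤ 1 := by
      rw [← measure_union₀ hmR.nullMeasurableSet htri, ← inter_union_distrib_left, hs.union,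
        splits_top.inter, hausdorffMeasure_segment, edist_dist, dist_v1_v4]
      simp
    have h2 : μH[1] (P ∩ R) < 1 := by
      rw [hs.inter, hausdorffMeasure_segment, edist_dist]
      exact (ENNReal.ofReal_lt_one).2 (chord_lt hs hvP)
    calc μH[1] (top ∩ P) + μH[1] (top ∩ R) + μH[1] (P ∩ R) ≤ 1 + μH[1] (P ∩ R) := by gcongr
      _ < 1 + 1 := ENNReal.add_lt_add_left (by norm_num) h2
      _ = 2 := by norm_num

end Pool.Agent.K4H73.Greedy
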