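import Pool.Agent.K4H73.Greedy.Area

/-!
# The hexagon
-/

set_option autoImplicit false

namespace Pool.Agent.K4H73.Greedy

open Set MeasureTheory Filter Topology

noncomputable section

def v1 : E2 := !₂[1 / 2, -13 / 32]
def v2 : E2 := !₂[87 / 425, -416 / 425]
def v5 : E2 := !₂[0, -5525 / 5568]
def v3 : E2 := !₂[-87 / 425, -416 / 425]
def v4 : E2 := !₂[-1 / 2, -13 / 32]

/-- the hexagon -/
def hex : Set E2 := convexHull ℝ {0, v1, v2, v5, v3, v4}

end

theorem v1_0 : v1 0 = 1 / 2 := by simp [v1]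
theorem v1_1 : v1 1 = -13 / 32 := by simp [v1]
theorem v2_0 : v2 0 = 87 / 425 := by simp [v2]
theorem v2_1 : v2 1 = -416 / 425 := by simp [v2]
theorem v5_0 : v5 0 = 0 := by simp [v5]
theorem v5_1 : v5 1 = -5525 / 5568 := by simp [v5]
theorem v3_0 : v3 0 = -87 / 425 := by simp [v3]
theorem v3_1 : v3 1 = -416 / 425 := by simp [v3]
theorem v4_0 : v4 0 = -1 / 2 := by simp [v4]
theorem v4_1 : v4 1 = -13 / 32 := by simp [v4]

theorem dist_le_one {x y : E2} (h : (x 0 - y 0) ^ 2 + (x 1 - y 1) ^ 2 ≤ 1) : dist x y ≤ 1 := by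
  rw [EuclideanSpace.dist_eq, Fin.sum_univ_two, Real.dist_eq, Real.dist_eq, sq_abs, sq_abs]
  exact Real.sqrt_le_iff.2 ⟨zero_le_one, by simpa using h⟩

theorem dist_lt_one {x y : E2} (h : (x 0 - y 0) ^ 2 + (x 1 - y 1) ^ 2 < 1) : dist x y < 1 := by
  rw [EuclideanSpace.dist_eq, Fin.sum_univ_two, Real.dist_eq, Real.dist_eq, sq_abs, sq_abs]
  rw [Real.sqrt_lt' one_pos]
  simpa using h

theorem dist_eq_one {x y : E2} (h : (x 0 - y 0) ^ 2 + (x 1 - y 1) ^ 2 = 1) : dist x y = 1 := by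
  rw [EuclideanSpace.dist_eq, Fin.sum_univ_two, Real.dist_eq, Real.dist_eq, sq_abs, sq_abs, h,
    Real.sqrt_one]

theorem convex_hex : Convex ℝ hex := convex_convexHull ℝ _

theorem compact_hex : IsCompact hex :=
  (toFinite ({0, v1, v2, v5, v3, v4} : Set E2)).isCompact_convexHull ℝ

theorem hex_ineq {a b c : ℝ} (h0 : 0 ≤ c) (h1 : a * v1 0 + b * v1 1 ≤ c)
    (h2 : a * v2 0 + b * v2 1 ≤ c) (h5 : a * v5 0 + b * v5 1 ≤ c) (h3 : a * v3 0 + b * v3 1 ≤ c)
    (h4 : a * v4 0 + b * v4 1 ≤ c) {x : E2} (hx : x ∈ hex) : a * x 0 + b * x 1 ≤ c := by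
  have hsub : hex ⊆ {y | lin a b y ≤ c} := by
    apply convexHull_min
    · intro y hy
      simp only [mem_insert_iff, mem_singleton_iff] at hy
      rcases hy with rfl | rfl | rfl | rfl | rfl | rfl <;> simp only [mem_ofPred_eq, lin_apply]
      · simpa using h0
      · exact h1
      · exact h2
      · exact h5
      · exact h3
      · exact h4
    · exact convex_halfSpace_le (lin a b).toLinearMap.isLinear c
  have := hsub hx
  simpa using this

/-- the six inequalities -/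
theorem ineqs {x : E2} (hx : x ∈ hex) : 13 * x 0 + 16 * x 1 ≤ 0 ∧ -13 * x 0 + 16 * x 1 ≤ 0 ∧
    7787 * x 0 + (-4016) * x 1 ≤ 5525 ∧ (-7787) * x 0 + (-4016) * x 1 ≤ 5525 ∧
    31837 * x 0 + (-484416) * x 1 ≤ 480675 ∧ (-31837) * x 0 + (-484416) * x 1 ≤ 480675 := by
  refine ⟨hex_ineq ?_ ?_ ?_ ?_ ?_ ?_ hx, hex_ineq ?_ ?_ ?_ ?_ ?_ ?_ hx, hex_ineq ?_ ?_ ?_ ?_ ?_ ?_ hx,
    hex_ineq ?_ ?_ ?_ ?_ ?_ ?_ hx, hex_ineq ?_ ?_ ?_ ?_ ?_ ?_ hx, hex_ineq ?_ ?_ ?_ ?_ ?_ ?_ hx⟩ <;>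
  norm_num [v1_0, v1_1, v2_0, v2_1, v5_0, v5_1, v3_0, v3_1, v4_0, v4_1]

theorem hex_diam : ∀ x ∈ hex, ∀ y ∈ hex, dist x y ≤ 1 := by
  intro x hx y hy
  obtain ⟨x', hx', y', hy', h⟩ := convexHull_exists_dist_ge2 hx hy
  refine h.trans (dist_le_one ?_)
  simp only [mem_insert_iff, mem_singleton_iff] at hx' hy'
  have e0 : (0 : E2) 0 = 0 := rfl
  have e1 : (0 : E2) 1 = 0 := rfl
  rcases hx' with rfl | rfl | rfl | rfl | rfl | rfl <;>
    rcases hy' with rfl | rfl | rfl | rfl | rfl | rfl <;>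
    norm_num [v1_0, v1_1, v2_0, v2_1, v5_0, v5_1, v3_0, v3_1, v4_0, v4_1, e0, e1]

theorem vert0 : (0 : E2) ∈ hex := subset_convexHull ℝ _ (by simp)
theorem vert1 : v1 ∈ hex := subset_convexHull ℝ _ (by simp)
theorem vert2 : v2 ∈ hex := subset_convexHull ℝ _ (by simp)
theorem vert5 : v5 ∈ hex := subset_convexHull ℝ _ (by simp)
theorem vert3 : v3 ∈ hex := subset_convexHull ℝ _ (by simp)
theorem vert4 : v4 ∈ hex := subset_convexHull ℝ _ (by simp)

theorem mem_tri_of_neg {p q x : E2} {D : ℝ} (hD : p 0 * q 1 - p 1 * q 0 = D) (hneg : D < 0)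
    (h1 : x 0 * q 1 - x 1 * q 0 ≤ 0) (h2 : p 0 * x 1 - p 1 * x 0 ≤ 0)
    (h3 : D ≤ x 0 * q 1 - x 1 * q 0 + (p 0 * x 1 - p 1 * x 0)) : x ∈ tri p q := by
  refine mem_tri.2 ⟨(x 0 * q 1 - x 1 * q 0) / D, (p 0 * x 1 - p 1 * x 0) / D,
    div_nonneg_of_nonpos h1 hneg.le, div_nonneg_of_nonpos h2 hneg.le, ?_, ?_⟩
  · rw [← add_div, div_le_one_of_neg hneg]
    exact h3
  · ext i
    have : (((x 0 * q 1 - x 1 * q 0) / D) • p + ((p 0 * x 1 - p 1 * x 0) / D) • q) i =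
      ((x 0 * q 1 - x 1 * q 0) / D) * p i + ((p 0 * x 1 - p 1 * x 0) / D) * q i := by simp
    rw [this]
    have hD0 : D ≠ 0 := hneg.ne
    fin_cases i
    · simp only [Fin.zero_eta]
      field_simp
      rw [← hD]; ring
    · simp only [Fin.mk_one]
      field_simp
      rw [← hD]; ring

theorem tri_sub {p q : E2} (hp : p ∈ hex) (hq : q ∈ hex) {S : Set E2} (hS : Convex ℝ S)
    (h0 : (0 : E2) ∈ S) (hpS : p ∈ S) (hqS : q ∈ S) : tri p q ⊆ hex ∩ S := by
  apply convexHull_min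
  · intro y hy
    simp only [mem_insert_iff, mem_singleton_iff] at hy
    rcases hy with rfl | rfl | rfl
    · exact ⟨vert0, h0⟩
    · exact ⟨hp, hpS⟩
    · exact ⟨hq, hqS⟩
  · exact convex_hex.inter hS

theorem half_le (a b c : ℝ) : Convex ℝ {x : E2 | lin a b x ≤ c} :=
  convex_halfSpace_le (lin a b).toLinearMap.isLinear c

theorem half_ge (a b c : ℝ) : Convex ℝ {x : E2 | c ≤ lin a b x} :=
  convex_halfSpace_ge (lin a b).toLinearMap.isLinear c

/-- the piece to the right of the line `v0 v2` -/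
theorem piece0 : hex ∩ {x | 0 ≤ lin 416 87 x} = tri v1 v2 := by
  apply Subset.antisymm
  · rintro x ⟨hx, hxf⟩
    obtain ⟨i1, i2, i3, i4, i5, i6⟩ := ineqs hx
    simp only [mem_ofPred_eq, lin_apply] at hxf
    refine mem_tri_of_neg (D := -13 / 32) ?_ (by norm_num) ?_ ?_ ?_ <;>
      simp only [v1_0, v1_1, v2_0, v2_1] <;> first | norm_num; done | linarith
  · refine tri_sub vert1 vert2 (half_ge _ _ _) ?_ ?_ ?_ <;>
    simp only [mem_ofPred_eq, lin_apply, v1_0, v1_1, v2_0, v2_1] <;> norm_num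

/-- the piece to the left of the line `v0 v3` -/
theorem piece2 : hex ∩ {x | 0 ≤ lin (-416) 87 x} = tri v3 v4 := by
  apply Subset.antisymm
  · rintro x ⟨hx, hxf⟩
    obtain ⟨i1, i2, i3, i4, i5, i6⟩ := ineqs hx
    simp only [mem_ofPred_eq, lin_apply] at hxf
    refine mem_tri_of_neg (D := -13 / 32) ?_ (by norm_num) ?_ ?_ ?_ <;>
      simp only [v3_0, v3_1, v4_0, v4_1] <;> first | norm_num; done | linarith
  · refine tri_sub vert3 vert4 (half_ge _ _ _) ?_ ?_ ?_ <;>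
    simp only [mem_ofPred_eq, lin_apply, v3_0, v3_1, v4_0, v4_1] <;> norm_num

theorem piece1r : hex ∩ ({x | lin 416 87 x ≤ 0} ∩ {x | 0 ≤ lin 1 0 x}) = tri v2 v5 := by
  apply Subset.antisymm
  · rintro x ⟨hx, hxf, hxg⟩
    obtain ⟨i1, i2, i3, i4, i5, i6⟩ := ineqs hx
    simp only [mem_ofPred_eq, lin_apply] at hxf hxg
    refine mem_tri_of_neg (D := -13 / 64) ?_ (by norm_num) ?_ ?_ ?_ <;>
      simp only [v2_0, v2_1, v5_0, v5_1] <;> first | norm_num; done | linarith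
  · refine tri_sub vert2 vert5 ((half_le _ _ _).inter (half_ge _ _ _)) ?_ ?_ ?_ <;>
    simp only [mem_inter_iff, mem_ofPred_eq, lin_apply, v2_0, v2_1, v5_0, v5_1] <;> norm_num

theorem piece1l : hex ∩ ({x | lin (-416) 87 x ≤ 0} ∩ {x | lin 1 0 x ≤ 0}) = tri v5 v3 := by
  apply Subset.antisymm
  · rintro x ⟨hx, hxf, hxg⟩
    obtain ⟨i1, i2, i3, i4, i5, i6⟩ := ineqs hx
    simp only [mem_ofPred_eq, lin_apply] at hxf hxg
    refine mem_tri_of_neg (D := -13 / 64) ?_ (by norm_num) ?_ ?_ ?_ <;>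
      simp only [v3_0, v3_1, v5_0, v5_1] <;> first | norm_num; done | linarith
  · refine tri_sub vert5 vert3 ((half_le _ _ _).inter (half_le _ _ _)) ?_ ?_ ?_ <;>
    simp only [mem_inter_iff, mem_ofPred_eq, lin_apply, v3_0, v3_1, v5_0, v5_1] <;> norm_num

/-- the piece above the line `v1 v4` -/
theorem pieceTop : hex ∩ {x | lin 0 (-1) x ≤ 13 / 32} = tri v1 v4 := by
  apply Subset.antisymm
  · rintro x ⟨hx, hxf⟩
    obtain ⟨i1, i2, i3, i4, i5, i6⟩ := ineqs hx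
    simp only [mem_ofPred_eq, lin_apply] at hxf
    refine mem_tri_of_neg (D := -13 / 32) ?_ (by norm_num) ?_ ?_ ?_ <;>
      simp only [v1_0, v1_1, v4_0, v4_1] <;> first | norm_num; done | linarith
  · refine tri_sub vert1 vert4 (half_le _ _ _) ?_ ?_ ?_ <;>
    simp only [mem_ofPred_eq, lin_apply, v1_0, v1_1, v4_0, v4_1] <;> norm_num

/-! ### Areas -/

theorem vol0 : volume (hex ∩ {x | 0 ≤ lin 416 87 x}) = ENNReal.ofReal (13 / 64) := by
  rw [piece0, volume_tri, v1_0, v1_1, v2_0, v2_1]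
  norm_num

theorem vol2 : volume (hex ∩ {x | 0 ≤ lin (-416) 87 x}) = ENNReal.ofReal (13 / 64) := by
  rw [piece2, volume_tri, v3_0, v3_1, v4_0, v4_1]
  norm_num

theorem volTop : volume (hex ∩ {x | lin 0 (-1) x ≤ 13 / 32}) = ENNReal.ofReal (13 / 64) := by
  rw [pieceTop, volume_tri, v1_0, v1_1, v4_0, v4_1]
  norm_num

theorem meas_hex : MeasurableSet hex := compact_hex.isClosed.measurableSet

theorem vol1 : volume (hex ∩ ({x | lin 416 87 x ≤ 0} ∩ {x | lin (-416) 87 x ≤ 0})) =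
    ENNReal.ofReal (13 / 64) := by
  have hm : MeasurableSet (hex ∩ ({x | lin 416 87 x ≤ 0} ∩ {x | lin (-416) 87 x ≤ 0})) :=
    meas_hex.inter ((isClosed_le (lin _ _).continuous continuous_const).inter
      (isClosed_le (lin _ _).continuous continuous_const)).measurableSet
  rw [vol_split hm (f := lin 1 0) (lin_ne (Or.inl one_ne_zero)) 0]
  have h1 : hex ∩ ({x | lin 416 87 x ≤ 0} ∩ {x | lin (-416) 87 x ≤ 0}) ∩ {x | lin 1 0 x ≤ 0} =
      tri v5 v3 := by
    rw [← piece1l]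
    ext x
    simp only [mem_inter_iff, mem_ofPred_eq, lin_apply]
    constructor
    · rintro ⟨⟨a, b, c⟩, d⟩; exact ⟨a, c, d⟩
    · rintro ⟨a, c, d⟩
      obtain ⟨i1, i2, -⟩ := ineqs a
      exact ⟨⟨a, by linarith, c⟩, d⟩
  have h2 : hex ∩ ({x | lin 416 87 x ≤ 0} ∩ {x | lin (-416) 87 x ≤ 0}) ∩ {x | 0 ≤ lin 1 0 x} =
      tri v2 v5 := by
    rw [← piece1r]
    ext x
    simp only [mem_inter_iff, mem_ofPred_eq, lin_apply]
    constructor
    · rintro ⟨⟨a, b, c⟩, d⟩; exact ⟨a, b, d⟩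
    · rintro ⟨a, c, d⟩
      obtain ⟨i1, i2, -⟩ := ineqs a
      exact ⟨⟨a, c, by linarith⟩, d⟩
  rw [h1, h2, volume_tri, volume_tri, v5_0, v5_1, v3_0, v3_1, v2_0, v2_1,
    ← ENNReal.ofReal_add (by positivity) (by positivity)]
  norm_num

theorem volHex : volume hex = ENNReal.ofReal (39 / 64) := by
  rw [vol_split meas_hex (f := lin 416 87) (lin_ne (Or.inl (by norm_num))) 0, vol0]
  have hm : MeasurableSet (hex ∩ {x | lin 416 87 x ≤ 0}) :=
    meas_hex.inter (isClosed_le (lin _ _).continuous continuous_const).measurableSet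
  rw [vol_split hm (f := lin (-416) 87) (lin_ne (Or.inl (by norm_num))) 0, inter_assoc, vol1]
  have h2 : hex ∩ {x | lin 416 87 x ≤ 0} ∩ {x | 0 ≤ lin (-416) 87 x} =
      hex ∩ {x | 0 ≤ lin (-416) 87 x} := by
    ext x
    simp only [mem_inter_iff, mem_ofPred_eq, lin_apply]
    constructor
    · rintro ⟨⟨a, b⟩, c⟩; exact ⟨a, c⟩
    · rintro ⟨a, c⟩
      obtain ⟨i1, i2, -⟩ := ineqs a
      exact ⟨⟨a, by linarith⟩, c⟩
  rw [h2, vol2, ← ENNReal.ofReal_add (by norm_num) (by norm_num),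
    ← ENNReal.ofReal_add (by norm_num) (by norm_num)]
  norm_num

theorem volBottom : volume (hex ∩ {x | 13 / 32 ≤ lin 0 (-1) x}) = ENNReal.ofReal (26 / 64) := by
  have h := vol_split meas_hex (f := lin 0 (-1)) (lin_ne (Or.inr (by norm_num))) (13 / 32)
  rw [volHex, volTop] at h
  have h2 : ENNReal.ofReal (39 / 64) = ENNReal.ofReal (13 / 64) + ENNReal.ofReal (26 / 64) := by
    rw [← ENNReal.ofReal_add (by norm_num) (by norm_num)]; norm_num
  rw [h2] at h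
  exact ((ENNReal.add_right_inj ENNReal.ofReal_ne_top).1 h).symm

theorem body_hex : IsConvexBody hex := by
  apply isConvexBody_of_volume compact_hex convex_hex
  rw [volHex]
  simp only [ne_eq, ENNReal.ofReal_eq_zero, not_le]
  norm_num

theorem third : volume hex / (3 : ℕ) = ENNReal.ofReal (13 / 64) := by
  rw [volHex]
  rw [show ((3 : ℕ) : ENNReal) = ENNReal.ofReal 3 by simp, ← ENNReal.ofReal_div_of_pos (by norm_num)]
  norm_num

/-! ### The perimeter is finite -/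

theorem perimeter_hex : perimeter hex ≠ ⊤ := by
  have hun : hex = tri v1 v2 ∪ tri v2 v5 ∪ tri v5 v3 ∪ tri v3 v4 := by
    rw [← piece0, ← piece1r, ← piece1l, ← piece2]
    ext x
    simp only [mem_union, mem_inter_iff, mem_ofPred_eq, lin_apply]
    constructor
    · intro hx
      rcases le_total 0 (1 * x 0 + 0 * x 1) with h | h
      · rcases le_total 0 (416 * x 0 + 87 * x 1) with h' | h'
        · exact Or.inl (Or.inl (Or.inl ⟨hx, h'⟩))
        · exact Or.inl (Or.inl (Or.inr ⟨hx, h', h⟩))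
      · rcases le_total 0 (-416 * x 0 + 87 * x 1) with h' | h'
        · exact Or.inr ⟨hx, h'⟩
        · exact Or.inl (Or.inr ⟨hx, h', h⟩)
    · rintro (((⟨h, -⟩ | ⟨h, -⟩) | ⟨h, -⟩) | ⟨h, -⟩) <;> exact h
  have hsub : frontier hex ⊆ frontier (tri v1 v2) ∪ frontier (tri v2 v5) ∪ frontier (tri v5 v3) ∪
      frontier (tri v3 v4) := by
    have hfu : ∀ s t : Set E2, frontier (s ∪ t) ⊆ frontier s ∪ frontier t := by
      intro s t x hx
      rcases frontier_union_subset s t hx with h | h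
      · exact Or.inl h.1
      · exact Or.inr h.2
    rw [hun]
    refine (hfu _ _).trans (union_subset_union_left _ ?_)
    refine (hfu _ _).trans (union_subset_union_left _ ?_)
    exact hfu _ _
  have h1 : μH[1] (frontier (tri v1 v2)) < ⊤ := length_tri (by
    rw [v1_0, v1_1, v2_0, v2_1]; norm_num)
  have h2 : μH[1] (frontier (tri v2 v5)) < ⊤ := length_tri (by
    rw [v2_0, v2_1, v5_0, v5_1]; norm_num)
  have h3 : μH[1] (frontier (tri v5 v3)) < ⊤ := length_tri (by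
    rw [v3_0, v3_1, v5_0, v5_1]; norm_num)
  have h4 : μH[1] (frontier (tri v3 v4)) < ⊤ := length_tri (by
    rw [v3_0, v3_1, v4_0, v4_1]; norm_num)
  refine (lt_of_le_of_lt (measure_mono hsub) ?_).ne
  refine lt_of_le_of_lt (measure_union_le _ _) (ENNReal.add_lt_top.2 ⟨?_, h4⟩)
  refine lt_of_le_of_lt (measure_union_le _ _) (ENNReal.add_lt_top.2 ⟨?_, h3⟩)
  exact lt_of_le_of_lt (measure_union_le _ _) (ENNReal.add_lt_top.2 ⟨h1, h2⟩)

end Pool.Agent.K4H73.Greedy
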