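import Pool.Agent.K4H73.Greedy.Plane

/-!
# Longest chords cutting off a given area
-/

set_option autoImplicit false

namespace Pool.Agent.K4H73.Greedy

open Set MeasureTheory Filter Topology

/-- a line has area zero -/
theorem volume_line {f : E2 →L[ℝ] ℝ} (hf : f ≠ 0) (c : ℝ) : volume {x : E2 | f x = c} = 0 := by
  obtain ⟨v, hv⟩ : ∃ v, f v ≠ 0 := by
    by_contra h
    push Not at h
    exact hf (ContinuousLinearMap.ext h)
  have hx0 : f ((c / f v) • v) = c := by
    rw [map_smul, smul_eq_mul, div_mul_cancel₀ _ hv]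
  have hset : {x : E2 | f x = c} =
      (AffineSubspace.mk' ((c / f v) • v) (LinearMap.ker f.toLinearMap) : Set E2) := by
    ext x
    simp only [mem_ofPred_eq, SetLike.mem_coe, AffineSubspace.mem_mk', LinearMap.mem_ker,
      vsub_eq_sub]
    constructor
    · intro h
      show f (x - (c / f v) • v) = 0
      rw [map_sub, h, hx0, sub_self]
    · intro h
      have h' : f (x - (c / f v) • v) = 0 := h
      rw [map_sub, hx0, sub_eq_zero] at h'
      exact h'
  rw [hset]
  apply Measure.addHaar_affineSubspace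
  intro htop
  have h1 : (c / f v) • v + v ∈ AffineSubspace.mk' ((c / f v) • v) (LinearMap.ker f.toLinearMap) := by
    rw [htop]; exact AffineSubspace.mem_top _ _ _
  rw [AffineSubspace.mem_mk', vsub_eq_sub, add_sub_cancel_left, LinearMap.mem_ker] at h1
  exact hv h1

/-- the area cut off by a line depends continuously on the line -/
theorem continuousAt_area {K : Set E2} (hK : IsConvexBody K) {p : E2 × ℝ} (hp : p.1 ≠ 0) :
    ContinuousAt (fun q : E2 × ℝ => volume (K ∩ {x | inner ℝ q.1 x ≤ q.2})) p := by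
  have hmeas : ∀ q : E2 × ℝ, MeasurableSet (K ∩ {x | inner ℝ q.1 x ≤ q.2}) := fun q =>
    hK.closed.measurableSet.inter
      (isClosed_le (by fun_prop : Continuous fun x : E2 => inner ℝ q.1 x)
        continuous_const).measurableSet
  refine tendsto_measure_of_ae_tendsto_indicator (𝓝 p) (hmeas p) hmeas hK.closed.measurableSet
    hK.compact.measure_lt_top.ne (Eventually.of_forall fun q => inter_subset_left) ?_
  have hf : innerSL ℝ p.1 ≠ 0 := by
    intro h0
    apply hp
    have := congrArg (fun f : E2 →L[ℝ] ℝ => f p.1) h0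
    simpa using this
  have hnull : ∀ᵐ x : E2, ¬ (innerSL ℝ p.1 x = p.2) := by
    rw [ae_iff]
    simpa using volume_line hf p.2
  filter_upwards [hnull] with x hx
  have hcont : Continuous fun q : E2 × ℝ => inner ℝ q.1 x - q.2 := by fun_prop
  have hx' : inner ℝ p.1 x - p.2 ≠ 0 := fun h => hx (by simpa using sub_eq_zero.1 h)
  rcases lt_or_gt_of_ne hx' with h | h
  · have h1 : ∀ᶠ q : E2 × ℝ in 𝓝 p, inner ℝ q.1 x - q.2 < 0 :=
      hcont.continuousAt.eventually_lt continuousAt_const h
    filter_upwards [h1] with q hq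
    simp only [mem_inter_iff, mem_ofPred_eq]
    constructor
    · rintro ⟨a, -⟩; exact ⟨a, by linarith⟩
    · rintro ⟨a, -⟩; exact ⟨a, by linarith⟩
  · have h1 : ∀ᶠ q : E2 × ℝ in 𝓝 p, 0 < inner ℝ q.1 x - q.2 :=
      continuousAt_const.eventually_lt hcont.continuousAt h
    filter_upwards [h1] with q hq
    simp only [mem_inter_iff, mem_ofPred_eq]
    constructor
    · rintro ⟨-, b⟩; exfalso; linarith
    · rintro ⟨-, b⟩; exfalso; linarith

/-- an interior point on a line which cuts `K` into two parts of positive area -/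
theorem exists_interior_on {K : Set E2} (hK : IsConvexBody K) {f : E2 →L[ℝ] ℝ} (hf : f ≠ 0) {c : ℝ}
    (h0 : volume (K ∩ {x | f x ≤ c}) ≠ 0) (h1 : volume (K ∩ {x | f x ≤ c}) ≠ volume K) :
    ∃ p ∈ interior K, f p = c := by
  have ha : ∃ x ∈ interior K, f x ≤ c := by
    by_contra hcon
    push Not at hcon
    apply h0
    refine measure_mono_null ?_ (volume_line hf c)
    rintro x ⟨hx, hxc⟩
    refine le_antisymm hxc ?_
    rw [← hK.closure_interior] at hx
    exact closure_minimal (fun y hy => (hcon y hy).le) (isClosed_le continuous_const f.continuous) hx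
  have hb : ∃ x ∈ interior K, c ≤ f x := by
    by_contra hcon
    push Not at hcon
    apply h1
    congr 1
    apply inter_eq_left.2
    intro x hx
    rw [← hK.closure_interior] at hx
    exact closure_minimal (fun y hy => (hcon y hy).le) (isClosed_le f.continuous continuous_const) hx
  obtain ⟨x, hx, hxc⟩ := ha
  obtain ⟨y, hy, hyc⟩ := hb
  have hpre : IsPreconnected (interior K) := hK.convex.interior.isPreconnected
  have := hpre.intermediate_value hx hy f.continuous.continuousOn
  obtain ⟨p, hp, hpc⟩ := this ⟨hxc, hyc⟩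
  exact ⟨p, hp, hpc⟩

/-- an interior point can be moved -/
theorem exists_pos_add_mem {K : Set E2} {p : E2} (hp : p ∈ interior K) (w : E2) :
    ∃ ε : ℝ, 0 < ε ∧ p + ε • w ∈ K := by
  have hcont : Continuous fun s : ℝ => p + s • w := by fun_prop
  have h0 : (fun s : ℝ => p + s • w) 0 ∈ interior K := by simpa using hp
  have h1 : ∀ᶠ s : ℝ in 𝓝 0, p + s • w ∈ interior K :=
    hcont.continuousAt.eventually_mem (isOpen_interior.mem_nhds h0)
  rw [Metric.eventually_nhds_iff] at h1
  obtain ⟨ε, hε, h2⟩ := h1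
  refine ⟨ε / 2, by positivity, interior_subset (h2 ?_)⟩
  rw [Real.dist_eq, sub_zero, abs_of_pos (by positivity)]
  linarith

/-- the compactness argument -/
theorem exists_longest {K : Set E2} (hK : IsConvexBody K) {α : ENNReal}
    (h1 : α < volume K) : ∃ u a b : E2, ‖u‖ = 1 ∧ a ∈ K ∧ b ∈ K ∧ inner ℝ u a = inner ℝ u b ∧
      volume (K ∩ {x | inner ℝ u x ≤ inner ℝ u a}) = α ∧
      ∀ u' a' b' : E2, ‖u'‖ = 1 → a' ∈ K → b' ∈ K → inner ℝ u' a' = inner ℝ u' b' →
        volume (K ∩ {x | inner ℝ u' x ≤ inner ℝ u' a'}) = α → dist a' b' ≤ dist a b := by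
  -- the compact set of chords
  have hS : IsCompact (Metric.sphere (0 : E2) 1 ×ˢ K ×ˢ K) :=
    (isCompact_sphere 0 1).prod (hK.compact.prod hK.compact)
  have hne : ∀ z ∈ (Metric.sphere (0 : E2) 1 ×ˢ K ×ˢ K), z.1 ≠ 0 := by
    rintro z ⟨hz, -⟩ h
    rw [mem_sphere_zero_iff_norm, h, norm_zero] at hz
    exact zero_ne_one hz
  have hG : ContinuousOn (fun z : E2 × E2 × E2 =>
      volume (K ∩ {x | inner ℝ z.1 x ≤ (inner ℝ z.1 z.2.1 : ℝ)}))
      (Metric.sphere (0 : E2) 1 ×ˢ K ×ˢ K) := by
    intro z hz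
    have hc : ContinuousAt (fun z : E2 × E2 × E2 => (z.1, (inner ℝ z.1 z.2.1 : ℝ))) z := by
      apply Continuous.continuousAt
      fun_prop
    have := (continuousAt_area hK (p := (z.1, inner ℝ z.1 z.2.1)) (hne z hz))
    exact (ContinuousAt.comp (f := fun z : E2 × E2 × E2 => (z.1, (inner ℝ z.1 z.2.1 : ℝ)))
      (g := fun q : E2 × ℝ => volume (K ∩ {x | inner ℝ q.1 x ≤ q.2})) (x := z) this
      hc).continuousWithinAt
  have hZ : IsCompact (((Metric.sphere (0 : E2) 1 ×ˢ K ×ˢ K) ∩ (fun z : E2 × E2 × E2 =>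
      volume (K ∩ {x | inner ℝ z.1 x ≤ (inner ℝ z.1 z.2.1 : ℝ)})) ⁻¹' {α}) ∩
      {z | (inner ℝ z.1 z.2.1 : ℝ) = inner ℝ z.1 z.2.2}) := by
    refine hS.of_isClosed_subset (IsClosed.inter ?_ ?_) (fun z hz => hz.1.1)
    · exact hG.preimage_isClosed_of_isClosed hS.isClosed isClosed_singleton
    · exact isClosed_eq (by fun_prop) (by fun_prop)
  obtain ⟨u, a, hu1, ha, hvol⟩ : ∃ u a : E2, ‖u‖ = 1 ∧ a ∈ K ∧
      volume (K ∩ {x | inner ℝ u x ≤ (inner ℝ u a : ℝ)}) = α := by
    obtain ⟨u, hu1⟩ : ∃ u : E2, ‖u‖ = 1 := ⟨EuclideanSpace.single 0 1, by simp⟩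
    have hu0 : u ≠ 0 := by
      intro h; rw [h, norm_zero] at hu1; exact zero_ne_one hu1
    have hKne : K.Nonempty := hK.interior_nonempty.mono interior_subset
    have hcu : Continuous fun x : E2 => (inner ℝ u x : ℝ) := by fun_prop
    obtain ⟨a, ha, hamin⟩ := hK.compact.exists_isMinOn hKne hcu.continuousOn
    obtain ⟨b, hb, hbmax⟩ := hK.compact.exists_isMaxOn hKne hcu.continuousOn
    have hFc : ContinuousOn (fun x : E2 => volume (K ∩ {y | inner ℝ u y ≤ (inner ℝ u x : ℝ)})) K := by
      intro x hx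
      have hc : ContinuousAt (fun x : E2 => (u, (inner ℝ u x : ℝ))) x := by
        apply Continuous.continuousAt
        fun_prop
      exact (ContinuousAt.comp (f := fun x : E2 => (u, (inner ℝ u x : ℝ)))
        (g := fun q : E2 × ℝ => volume (K ∩ {x | inner ℝ q.1 x ≤ q.2})) (x := x)
        (continuousAt_area hK (p := (u, inner ℝ u x)) hu0) hc).continuousWithinAt
    have hf : innerSL ℝ u ≠ 0 := by
      intro h0
      apply hu0
      have := congrArg (fun f : E2 →L[ℝ] ℝ => f u) h0
      simpa using this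
    have hFa : volume (K ∩ {y | inner ℝ u y ≤ (inner ℝ u a : ℝ)}) = 0 := by
      refine measure_mono_null ?_ (volume_line hf (inner ℝ u a))
      rintro x ⟨hx, hxc⟩
      exact le_antisymm hxc (hamin hx)
    have hFb : volume (K ∩ {y | inner ℝ u y ≤ (inner ℝ u b : ℝ)}) = volume K := by
      congr 1
      apply inter_eq_left.2
      intro x hx
      exact hbmax hx
    have hpre : IsPreconnected K := hK.convex.isPreconnected
    have hmem : α ∈ Icc (volume (K ∩ {y | inner ℝ u y ≤ (inner ℝ u a : ℝ)}))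
        (volume (K ∩ {y | inner ℝ u y ≤ (inner ℝ u b : ℝ)})) :=
      ⟨by rw [hFa]; exact bot_le, by rw [hFb]; exact h1.le⟩
    obtain ⟨x, hx, hxα⟩ := hpre.intermediate_value ha hb hFc hmem
    exact ⟨u, x, hu1, hx, hxα⟩
  obtain ⟨z, hz, hmax⟩ := hZ.exists_isMaxOn
    (f := fun z : E2 × E2 × E2 => dist z.2.1 z.2.2)
    ⟨(u, a, a), ⟨⟨mem_sphere_zero_iff_norm.2 hu1, ha, ha⟩, hvol⟩, rfl⟩ (by fun_prop)
  obtain ⟨⟨⟨hz1, hz2, hz3⟩, hzα⟩, hzab⟩ := hz
  refine ⟨z.1, z.2.1, z.2.2, mem_sphere_zero_iff_norm.1 hz1, hz2, hz3, hzab, hzα, ?_⟩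
  intro u' a' b' hu' ha' hb' hab' hvol'
  exact isMaxOn_iff.1 hmax (u', a', b')
    ⟨⟨⟨mem_sphere_zero_iff_norm.2 hu', ha', hb'⟩, hvol'⟩, hab'⟩

/-- there is a longest chord which cuts off the area `α` -/
theorem exists_greedyStep {K : Set E2} (hK : IsConvexBody K) {α : ENNReal} (h0 : α ≠ 0)
    (h1 : α < volume K) : ∃ P R, GreedyStep K α P R := by
  obtain ⟨u, a, b, hu1, ha, hb, hab, hvol, hmax⟩ := exists_longest hK h1
  have hu0 : u ≠ 0 := by
    intro h; rw [h, norm_zero] at hu1; exact zero_ne_one hu1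
  have hf : innerSL ℝ u ≠ 0 := by
    intro h0
    apply hu0
    have := congrArg (fun f : E2 →L[ℝ] ℝ => f u) h0
    simpa using this
  set c : ℝ := inner ℝ u a with hc
  have key : ∀ x ∈ K, ∀ y ∈ K, inner ℝ u x = c → inner ℝ u y = c → dist x y ≤ dist a b := by
    intro x hx y hy hxc hyc
    refine hmax u x y hu1 hx hy (by rw [hxc, hyc]) ?_
    rw [hxc]; exact hvol
  -- an interior point on the line
  obtain ⟨p, hp, hpc⟩ := exists_interior_on hK hf (c := c) (by
    show volume (K ∩ {x | inner ℝ u x ≤ c}) ≠ 0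
    rw [hvol]; exact h0) (by
    show volume (K ∩ {x | inner ℝ u x ≤ c}) ≠ volume K
    rw [hvol]; exact h1.ne)
  have hpc' : inner ℝ u p = c := hpc
  obtain ⟨w, hw, hfw⟩ := exists_ker_ne (innerSL ℝ u)
  have hfw' : inner ℝ u w = (0 : ℝ) := hfw
  have hne : a ≠ b := by
    obtain ⟨ε, hε, hpε⟩ := exists_pos_add_mem hp w
    have := key p (interior_subset hp) _ hpε hpc' (by
      rw [inner_add_right, inner_smul_right, hfw', mul_zero, add_zero, hpc'])
    intro hab'
    rw [hab', dist_self, dist_comm, dist_eq_norm, add_sub_cancel_left, norm_smul, Real.norm_eq_abs,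
      abs_of_pos hε] at this
    have h2 : 0 < ε * ‖w‖ := mul_pos hε (norm_pos_iff.2 hw)
    linarith
  have hfr : ∀ x y : E2, x ∈ K → y ∈ K → inner ℝ u x = c → inner ℝ u y = c →
      dist x y = dist a b → x ∈ frontier K := by
    intro x y hx hy hxc hyc hxy
    refine ⟨subset_closure hx, fun hxi => ?_⟩
    obtain ⟨ε, hε, hpε⟩ := exists_pos_add_mem hxi (x - y)
    have h3 := key _ hpε y hy (by
      rw [inner_add_right, inner_smul_right, inner_sub_right, hxc, hyc, sub_self, mul_zero,
        add_zero]) hyc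
    rw [← hxy, dist_eq_norm, dist_eq_norm] at h3
    have h4 : x + ε • (x - y) - y = (1 + ε) • (x - y) := by module
    rw [h4, norm_smul, Real.norm_eq_abs, abs_of_pos (by positivity)] at h3
    have h5 : 0 < ‖x - y‖ := by
      rw [← dist_eq_norm, hxy]; exact dist_pos.2 hne
    nlinarith
  refine ⟨K ∩ {x | innerSL ℝ u x ≤ c}, K ∩ {x | c ≤ innerSL ℝ u x}, a, b,
    ⟨hfr a b ha hb rfl hab.symm rfl, hfr b a hb ha hab.symm rfl (dist_comm _ _), innerSL ℝ u, c, hf,
      ?_, rfl, rfl⟩, hvol, ?_⟩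
  · apply Subset.antisymm
    · rintro x ⟨hx, hxc⟩
      have hxc' : inner ℝ u x = c := hxc
      have hd : 0 < dist a b := dist_pos.2 hne
      obtain ⟨t, ht⟩ := exists_mul_of_ker hf (sub_ne_zero.2 hne.symm)
        (show innerSL ℝ u (b - a) = 0 by
          rw [map_sub]
          show inner ℝ u b - inner ℝ u a = (0 : ℝ)
          rw [← hab, hc, sub_self])
        (show innerSL ℝ u (x - a) = 0 by
          rw [map_sub]
          show inner ℝ u x - inner ℝ u a = (0 : ℝ)
          rw [hxc', hc, sub_self])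
      have e1 := key x hx a ha hxc' rfl
      have e2 := key x hx b hb hxc' hab.symm
      rw [dist_eq_norm, ht, norm_smul, Real.norm_eq_abs, ← dist_eq_norm, dist_comm b a] at e1
      have h6 : x - b = (t - 1) • (b - a) := by
        have : x - b = (x - a) - (b - a) := by abel
        rw [this, ht]; module
      rw [dist_eq_norm, h6, norm_smul, Real.norm_eq_abs, ← dist_eq_norm, dist_comm b a] at e2
      have e1' : |t| ≤ 1 := by
        by_contra hcon
        push Not at hcon
        nlinarith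
      have e2' : |t - 1| ≤ 1 := by
        by_contra hcon
        push Not at hcon
        nlinarith
      rw [segment_eq_image']
      refine ⟨t, ⟨?_, (abs_le.1 e1').2⟩, ?_⟩
      · have := (abs_le.1 e2').1; linarith
      · show a + t • (b - a) = x
        rw [← ht]; abel
    · intro x hx
      refine ⟨hK.convex.segment_subset ha hb hx, ?_⟩
      obtain ⟨s, t, hs, ht, hst, rfl⟩ := hx
      show inner ℝ u (s • a + t • b) = c
      rw [inner_add_right, inner_smul_right, inner_smul_right, ← hab, ← hc, ← add_mul, hst, one_mul]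
  · rintro a' b' P' R' ⟨ha', hb', f', c', hf', hseg, hP', hR'⟩ hvol'
    have ha'' : a' ∈ K ∩ {x | f' x = c'} := by rw [hseg]; exact left_mem_segment ℝ _ _
    have hb'' : b' ∈ K ∩ {x | f' x = c'} := by rw [hseg]; exact right_mem_segment ℝ _ _
    have e1 : f' a' = c' := ha''.2
    have e2 : f' b' = c' := hb''.2
    obtain ⟨v, hvf⟩ : ∃ v : E2, ∀ x, inner ℝ v x = f' x :=
      ⟨(InnerProductSpace.toDual ℝ E2).symm f', fun x => InnerProductSpace.toDual_symm_apply⟩
    have hv0 : v ≠ 0 := by
      intro h0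
      apply hf'
      ext x
      rw [← hvf, h0, inner_zero_left]; rfl
    have hvn : 0 < ‖v‖ := norm_pos_iff.2 hv0
    have hin : ∀ x, inner ℝ (‖v‖⁻¹ • v) x = ‖v‖⁻¹ * f' x := by
      intro x
      rw [real_inner_smul_left, hvf]
    refine hmax (‖v‖⁻¹ • v) a' b' ?_ ha''.1 hb''.1 ?_ ?_
    · rw [norm_smul, norm_inv, norm_norm, inv_mul_cancel₀ hvn.ne']
    · rw [hin, hin, e1, e2]
    · rw [← hvol', hP']
      congr 1
      ext z
      simp only [mem_inter_iff, mem_ofPred_eq, hin]
      rw [e1]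
      constructor
      · rintro ⟨h1, h2⟩
        exact ⟨h1, le_of_mul_le_mul_left h2 (by positivity)⟩
      · rintro ⟨h1, h2⟩
        exact ⟨h1, mul_le_mul_of_nonneg_left h2 (by positivity)⟩

/-! ### The two pieces -/

theorem Splits.union {K P R : Set E2} {a b : E2} (h : Splits K a b P R) : P ∪ R = K := by
  obtain ⟨-, -, f, c, hf, -, rfl, rfl⟩ := h
  rw [← inter_union_distrib_left]
  apply inter_eq_left.2
  intro x _
  exact le_total (f x) c

theorem Splits.inter {K P R : Set E2} {a b : E2} (h : Splits K a b P R) :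
    P ∩ R = segment ℝ a b := by
  obtain ⟨-, -, f, c, hf, hseg, rfl, rfl⟩ := h
  rw [← hseg]
  ext x
  simp only [mem_inter_iff, mem_ofPred_eq]
  constructor
  · rintro ⟨⟨h1, h2⟩, -, h3⟩; exact ⟨h1, le_antisymm h2 h3⟩
  · rintro ⟨h1, h2⟩; exact ⟨⟨h1, h2.le⟩, h1, h2.ge⟩

theorem Splits.disjoint {K P R : Set E2} {a b : E2} (h : Splits K a b P R) :
    Disjoint (interior P) (interior R) := by
  obtain ⟨-, -, f, c, hf, hseg, rfl, rfl⟩ := h
  rw [Set.disjoint_left]
  intro x hx hx'
  have h1 := lt_of_interior hf (fun y (hy : y ∈ K ∩ {x | f x ≤ c}) => hy.2) hx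
  have h2 := gt_of_interior hf (fun y (hy : y ∈ K ∩ {x | c ≤ f x}) => hy.2) hx'
  linarith

theorem Splits.add {K P R : Set E2} {a b : E2} (hK : IsConvexBody K) (h : Splits K a b P R) :
    volume P + volume R = volume K := by
  have hu := h.union
  obtain ⟨-, -, f, c, hf, hseg, rfl, rfl⟩ := h
  symm
  conv_lhs => rw [← hu]
  rw [measure_union₀ (hK.closed.measurableSet.inter
    (isClosed_le continuous_const f.continuous).measurableSet).nullMeasurableSet]
  refine measure_mono_null ?_ (volume_line hf c)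
  rintro x ⟨h1, h2⟩
  exact le_antisymm h1.2 h2.2

/-- a compact convex set of positive area is a convex body -/
theorem isConvexBody_of_volume {K : Set E2} (h1 : IsCompact K) (h2 : Convex ℝ K)
    (h3 : volume K ≠ 0) : IsConvexBody K := by
  refine ⟨h2, h1, ?_⟩
  by_contra hcon
  rw [not_nonempty_iff_eq_empty] at hcon
  apply h3
  have := h2.addHaar_frontier (μ := volume)
  rw [frontier, hcon, sdiff_empty, h1.isClosed.closure_eq] at this
  exact this

theorem Splits.left {K P R : Set E2} {a b : E2} (hK : IsConvexBody K) (h : Splits K a b P R)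
    (h0 : volume P ≠ 0) : IsConvexBody P := by
  obtain ⟨-, -, f, c, hf, hseg, rfl, rfl⟩ := h
  exact isConvexBody_of_volume (hK.compact.inter_right (isClosed_le f.continuous continuous_const))
    (hK.convex.inter (convex_halfSpace_le f.toLinearMap.isLinear c)) h0

theorem Splits.right {K P R : Set E2} {a b : E2} (hK : IsConvexBody K) (h : Splits K a b P R)
    (h0 : volume R ≠ 0) : IsConvexBody R := by
  obtain ⟨-, -, f, c, hf, hseg, rfl, rfl⟩ := h
  exact isConvexBody_of_volume (hK.compact.inter_right (isClosed_le continuous_const f.continuous))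
    (hK.convex.inter (convex_halfSpace_ge f.toLinearMap.isLinear c)) h0

end Pool.Agent.K4H73.Greedy
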