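import Pool.Agent.K4H73.Greedy.Defs

/-!
# Lemmas on convex bodies in the plane
-/

set_option autoImplicit false

namespace Pool.Agent.K4H73.Greedy

open Set MeasureTheory

/-! ### Linear functionals -/

theorem coord_expand (f : E2 →L[ℝ] ℝ) (x : E2) :
    f x = f (EuclideanSpace.single 0 1) * x 0 + f (EuclideanSpace.single 1 1) * x 1 := by
  have : x = x 0 • EuclideanSpace.single 0 (1 : ℝ) + x 1 • EuclideanSpace.single 1 (1 : ℝ) := by
    ext i
    fin_cases i <;> simp
  conv_lhs => rw [this]
  rw [map_add, map_smul, map_smul, smul_eq_mul, smul_eq_mul]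
  ring

theorem exists_mul_of_ker {f : E2 →L[ℝ] ℝ} (hf : f ≠ 0) {w u : E2} (hw : w ≠ 0) (hfw : f w = 0)
    (hfu : f u = 0) : ∃ t : ℝ, u = t • w := by
  rw [coord_expand] at hfw hfu
  set a := f (EuclideanSpace.single 0 1) with ha
  set b := f (EuclideanSpace.single 1 1) with hb
  have hab : a ≠ 0 ∨ b ≠ 0 := by
    by_contra h
    push Not at h
    apply hf
    ext x
    rw [coord_expand, ← ha, ← hb, h.1, h.2]
    simp
  have hdet : w 0 * u 1 = w 1 * u 0 := by
    rcases hab with h | h
    · apply mul_left_cancel₀ h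
      linear_combination u 1 * hfw - w 1 * hfu
    · apply mul_left_cancel₀ h
      linear_combination (-(u 0)) * hfw + w 0 * hfu
  have hw' : w 0 ≠ 0 ∨ w 1 ≠ 0 := by
    by_contra h
    push Not at h
    apply hw
    ext i
    fin_cases i
    · exact h.1
    · exact h.2
  rcases hw' with h | h
  · refine ⟨u 0 / w 0, ?_⟩
    ext i
    fin_cases i
    · simp; field_simp
    · simp; field_simp; linarith
  · refine ⟨u 1 / w 1, ?_⟩
    ext i
    fin_cases i
    · simp; field_simp; linarith
    · simp; field_simp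

theorem exists_smul_of_ker {f g : E2 →L[ℝ] ℝ} (hf : f ≠ 0) {w : E2} (hw : w ≠ 0) (hfw : f w = 0)
    (hgw : g w = 0) : ∃ r : ℝ, g = r • f := by
  obtain ⟨v, hv⟩ : ∃ v, f v ≠ 0 := by
    by_contra h
    push Not at h
    exact hf (ContinuousLinearMap.ext h)
  refine ⟨g v / f v, ?_⟩
  ext x
  have h1 : f (x - (f x / f v) • v) = 0 := by
    rw [map_sub, map_smul, smul_eq_mul, div_mul_cancel₀ _ hv, sub_self]
  obtain ⟨t, ht⟩ := exists_mul_of_ker hf hw hfw h1
  have h2 : g (x - (f x / f v) • v) = 0 := by rw [ht, map_smul, hgw, smul_zero]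
  rw [map_sub, map_smul, smul_eq_mul, sub_eq_zero] at h2
  rw [h2, smul_apply, smul_eq_mul]
  ring

theorem exists_ker_ne (f : E2 →L[ℝ] ℝ) : ∃ w : E2, w ≠ 0 ∧ f w = 0 := by
  by_cases h : f (EuclideanSpace.single 1 1) = 0
  · refine ⟨EuclideanSpace.single 1 1, ?_, h⟩
    intro h0
    have := congrArg (fun x : E2 => x 1) h0
    simp at this
  · refine ⟨EuclideanSpace.single 0 (-f (EuclideanSpace.single 1 1)) +
      EuclideanSpace.single 1 (f (EuclideanSpace.single 0 1)), ?_, ?_⟩
    · intro h0
      have := congrArg (fun x : E2 => x 0) h0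
      simp at this
      exact h this
    · rw [coord_expand]
      simp
      ring

/-! ### Interior points -/

theorem IsConvexBody.closed {K : Set E2} (h : IsConvexBody K) : IsClosed K := h.compact.isClosed

theorem IsConvexBody.closure_interior {K : Set E2} (h : IsConvexBody K) :
    closure (interior K) = K := by
  rw [h.convex.closure_interior_eq_closure_of_nonempty_interior h.interior_nonempty,
    h.closed.closure_eq]

/-- a nonzero functional does not attain its maximum over a set at an interior point -/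
theorem lt_of_interior {K : Set E2} {f : E2 →L[ℝ] ℝ} (hf : f ≠ 0) {c : ℝ}
    (h : ∀ x ∈ K, f x ≤ c) {x : E2} (hx : x ∈ interior K) : f x < c := by
  have h1 : interior K ⊆ interior {x | f x ≤ c} := interior_mono h
  have h2 : interior {x : E2 | f x ≤ c} ⊆ {x | f x < c} := by
    intro y hy
    have hopen := f.isOpenMap_of_ne_zero hf
    have h3 : f '' interior {x : E2 | f x ≤ c} ⊆ interior (Iic c) := by
      refine interior_maximal ?_ (hopen _ isOpen_interior)
      rintro _ ⟨z, hz, rfl⟩
      exact (interior_subset hz : z ∈ {x : E2 | f x ≤ c})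
    rw [interior_Iic] at h3
    exact h3 ⟨y, hy, rfl⟩
  exact h2 (h1 hx)

theorem gt_of_interior {K : Set E2} {f : E2 →L[ℝ] ℝ} (hf : f ≠ 0) {c : ℝ}
    (h : ∀ x ∈ K, c ≤ f x) {x : E2} (hx : x ∈ interior K) : c < f x := by
  have h1 := lt_of_interior (f := -f) (neg_ne_zero.2 hf) (c := -c) (K := K)
    (fun x hx => by simpa using h x hx) hx
  simpa using h1

/-- two bodies with disjoint interiors are separated by a line -/
theorem separate {A B : Set E2} (hA : IsConvexBody A) (hB : IsConvexBody B)
    (h : Disjoint (interior A) (interior B)) :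
    ∃ (f : E2 →L[ℝ] ℝ) (c : ℝ), f ≠ 0 ∧ (∀ x ∈ A, f x ≤ c) ∧ (∀ x ∈ B, c ≤ f x) := by
  obtain ⟨f, c, h1, h2⟩ := geometric_hahn_banach_open_open hA.convex.interior isOpen_interior
    hB.convex.interior isOpen_interior h
  refine ⟨f, c, ?_, ?_, ?_⟩
  · rintro rfl
    obtain ⟨x, hx⟩ := hA.interior_nonempty
    obtain ⟨y, hy⟩ := hB.interior_nonempty
    have e1 := h1 x hx
    have e2 := h2 y hy
    simp at e1 e2
    linarith
  · intro x hx
    rw [← hA.closure_interior] at hx
    exact closure_minimal (fun y hy => (h1 y hy).le) (isClosed_le f.continuous continuous_const) hx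
  · intro x hx
    rw [← hB.closure_interior] at hx
    exact closure_minimal (fun y hy => (h2 y hy).le) (isClosed_le continuous_const f.continuous) hx

/-- the intersection of two bodies with disjoint interiors is empty or a segment -/
theorem inter_segment {A B : Set E2} (hA : IsConvexBody A) (hB : IsConvexBody B)
    (h : Disjoint (interior A) (interior B)) (hne : (A ∩ B).Nonempty) :
    ∃ a b, A ∩ B = segment ℝ a b := by
  obtain ⟨f, c, hf, h1, h2⟩ := separate hA hB h
  have hS : IsCompact (A ∩ B) := hA.compact.inter hB.compact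
  have hc : Convex ℝ (A ∩ B) := hA.convex.inter hB.convex
  have hfc : ∀ x ∈ A ∩ B, f x = c := fun x hx => le_antisymm (h1 x hx.1) (h2 x hx.2)
  obtain ⟨w, hw, hfw⟩ := exists_ker_ne f
  -- the coordinate along the line
  obtain ⟨z, hz⟩ := hne
  have hpar : ∀ x ∈ A ∩ B, ∃ t : ℝ, x = z + t • w := by
    intro x hx
    obtain ⟨t, ht⟩ := exists_mul_of_ker hf hw hfw
      (show f (x - z) = 0 by rw [map_sub, hfc x hx, hfc z hz, sub_self])
    exact ⟨t, by rw [← ht]; abel⟩
  let τ : E2 → ℝ := fun x => inner ℝ w x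
  have hτ : Continuous τ := by fun_prop
  obtain ⟨a, ha, hamin⟩ := hS.exists_isMinOn ⟨z, hz⟩ hτ.continuousOn
  obtain ⟨b, hb, hbmax⟩ := hS.exists_isMaxOn ⟨z, hz⟩ hτ.continuousOn
  refine ⟨a, b, ?_⟩
  apply Subset.antisymm
  · intro x hx
    obtain ⟨s, hs⟩ := hpar a ha
    obtain ⟨t, ht⟩ := hpar b hb
    obtain ⟨r, hr⟩ := hpar x hx
    have hww : 0 < inner ℝ w w := by
      rw [real_inner_self_eq_norm_sq]
      have := norm_pos_iff.2 hw
      positivity
    have e1 : τ a ≤ τ x := hamin hx
    have e2 : τ x ≤ τ b := hbmax hx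
    simp only [τ] at e1 e2
    rw [hs, hr, inner_add_right, inner_add_right, inner_smul_right, inner_smul_right] at e1
    rw [ht, hr, inner_add_right, inner_add_right, inner_smul_right, inner_smul_right] at e2
    have e3 : s ≤ r := by
      have : s * inner ℝ w w ≤ r * inner ℝ w w := by linarith
      exact le_of_mul_le_mul_right this hww
    have e4 : r ≤ t := by
      have : r * inner ℝ w w ≤ t * inner ℝ w w := by linarith
      exact le_of_mul_le_mul_right this hww
    rw [hs, ht, hr]
    have himg : segment ℝ s t = Icc s t := segment_eq_Icc (e3.trans e4)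
    have hrst : r ∈ segment ℝ s t := by rw [himg]; exact ⟨e3, e4⟩
    obtain ⟨α, β, hα, hβ, hab, hr2⟩ := hrst
    refine ⟨α, β, hα, hβ, hab, ?_⟩
    rw [← hr2]
    simp only [smul_eq_mul]
    have : α • (z + s • w) + β • (z + t • w) = (α + β) • z + (α * s + β * t) • w := by module
    rw [this, hab, one_smul]
  · exact hc.segment_subset ha hb

end Pool.Agent.K4H73.Greedy
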