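import Pool.Agent.K4H73.Greedy.Plane

/-!
# Partitions of a planar convex body into three convex bodies
-/

set_option autoImplicit false

namespace Pool.Agent.K4H73.Greedy

open Set MeasureTheory

instance : NullSingletonClass (μH[1] : Measure E2) :=
  Measure.nullSingletonClass_hausdorff E2 one_pos

/-- `C` is divided into the convex bodies `A`, `B`, `D` -/
structure Tri (C A B D : Set E2) : Prop where
  conv : Convex ℝ C
  bA : IsConvexBody A
  bB : IsConvexBody B
  bD : IsConvexBody D
  dAB : Disjoint (interior A) (interior B)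
  dAD : Disjoint (interior A) (interior D)
  dBD : Disjoint (interior B) (interior D)
  un : A ∪ B ∪ D = C

theorem Tri.swap12 {C A B D : Set E2} (h : Tri C A B D) : Tri C B A D :=
  ⟨h.conv, h.bB, h.bA, h.bD, h.dAB.symm, h.dBD, h.dAD, by rw [← h.un, union_comm B A]⟩

theorem Tri.swap23 {C A B D : Set E2} (h : Tri C A B D) : Tri C A D B :=
  ⟨h.conv, h.bA, h.bD, h.bB, h.dAD, h.dAB, h.dBD.symm, by
    rw [← h.un, union_assoc, union_comm D B, ← union_assoc]⟩

theorem Tri.subA {C A B D : Set E2} (h : Tri C A B D) : A ⊆ C := by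
  rw [← h.un]; exact fun x hx => Or.inl (Or.inl hx)

theorem Tri.subB {C A B D : Set E2} (h : Tri C A B D) : B ⊆ C := h.swap12.subA

theorem Tri.subD {C A B D : Set E2} (h : Tri C A B D) : D ⊆ C := h.swap23.swap12.subA

/-- a point in the open segment: values of a functional -/
theorem eq_of_openSegment {f : E2 →L[ℝ] ℝ} {a b z : E2} {c : ℝ} (hz : z ∈ openSegment ℝ a b)
    (ha : f a ≤ c) (hb : f b ≤ c) (hc : f z = c) : f a = c ∧ f b = c := by
  obtain ⟨s, t, hs, ht, hst, rfl⟩ := hz
  rw [map_add, map_smul, map_smul, smul_eq_mul, smul_eq_mul] at hc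
  have e0 : s * c + t * c = c := by rw [← add_mul, hst, one_mul]
  have e1 := mul_le_mul_of_nonneg_left ha hs.le
  have e2 := mul_le_mul_of_nonneg_left hb ht.le
  constructor
  · by_contra hne
    have h1 : f a < c := lt_of_le_of_ne ha hne
    have := mul_lt_mul_of_pos_left h1 hs
    linarith
  · by_contra hne
    have h1 : f b < c := lt_of_le_of_ne hb hne
    have := mul_lt_mul_of_pos_left h1 ht
    linarith

/-- No point in the open segment between two common points of two of the bodies belongs to the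
third. -/
theorem no_third {A B D : Set E2} (bA : IsConvexBody A) (bB : IsConvexBody B)
    (bD : IsConvexBody D) (dAB : Disjoint (interior A) (interior B))
    (dAD : Disjoint (interior A) (interior D)) (dBD : Disjoint (interior B) (interior D))
    {a b z : E2} (hab : a ≠ b) (ha : a ∈ A ∩ B) (hb : b ∈ A ∩ B) (hz : z ∈ openSegment ℝ a b)
    (hzD : z ∈ D) : False := by
  obtain ⟨f, c, hf, f1, f2⟩ := separate bA bB dAB
  obtain ⟨g, c', hg, g1, g2⟩ := separate bA bD dAD
  obtain ⟨k, c'', hk, k1, k2⟩ := separate bB bD dBD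
  have hzA : z ∈ A := bA.convex.openSegment_subset ha.1 hb.1 hz
  have hzB : z ∈ B := bB.convex.openSegment_subset ha.2 hb.2 hz
  have hw : b - a ≠ 0 := sub_ne_zero.2 hab.symm
  have fa : f a = c := le_antisymm (f1 a ha.1) (f2 a ha.2)
  have fb : f b = c := le_antisymm (f1 b hb.1) (f2 b hb.2)
  have hfw : f (b - a) = 0 := by rw [map_sub, fa, fb, sub_self]
  have gz : g z = c' := le_antisymm (g1 z hzA) (g2 z hzD)
  obtain ⟨ga, gb⟩ := eq_of_openSegment hz (g1 a ha.1) (g1 b hb.1) gz
  have hgw : g (b - a) = 0 := by rw [map_sub, ga, gb, sub_self]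
  have kz : k z = c'' := le_antisymm (k1 z hzB) (k2 z hzD)
  obtain ⟨ka, kb⟩ := eq_of_openSegment hz (k1 a ha.2) (k1 b hb.2) kz
  have hkw : k (b - a) = 0 := by rw [map_sub, ka, kb, sub_self]
  obtain ⟨r, hr⟩ := exists_smul_of_ker hf hw hfw hgw
  obtain ⟨s, hs⟩ := exists_smul_of_ker hf hw hfw hkw
  obtain ⟨x, hx⟩ := bA.interior_nonempty
  obtain ⟨y, hy⟩ := bB.interior_nonempty
  obtain ⟨v, hv⟩ := bD.interior_nonempty
  have e1 := lt_of_interior hf f1 hx
  have e2 := gt_of_interior hf f2 hy
  have e3 := lt_of_interior hg g1 hx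
  have e4 := gt_of_interior hg g2 hv
  have e5 := lt_of_interior hk k1 hy
  have e6 := gt_of_interior hk k2 hv
  rw [hr, smul_apply, smul_eq_mul] at ga e3 e4
  rw [hs, smul_apply, smul_eq_mul] at ka e5 e6
  rw [fa] at ga ka
  -- `r > 0`, `s < 0`
  have h1 : r * f x < r * c := by rw [ga]; exact e3
  have hrpos : 0 < r := by
    by_contra hr0
    push Not at hr0
    nlinarith
  have h2 : s * f y < s * c := by rw [ka]; exact e5
  have hsneg : s < 0 := by
    by_contra hs0
    push Not at hs0
    nlinarith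
  have h3 : r * c < r * f v := by rw [ga]; exact e4
  have h4 : c < f v := lt_of_mul_lt_mul_left h3 hrpos.le
  have h5 : s * c < s * f v := by rw [ka]; exact e6
  nlinarith

/-- the open segment between two common points of two bodies is in the interior -/
theorem openSegment_interior {C A B : Set E2} (hC : Convex ℝ C) (bA : IsConvexBody A)
    (bB : IsConvexBody B) (dAB : Disjoint (interior A) (interior B)) (hA : A ⊆ C) (hB : B ⊆ C)
    {a b z : E2} (hab : a ≠ b) (ha : a ∈ A ∩ B) (hb : b ∈ A ∩ B) (hz : z ∈ openSegment ℝ a b) :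
    z ∈ interior C := by
  by_contra hcon
  obtain ⟨f, c, hf, f1, f2⟩ := separate bA bB dAB
  obtain ⟨x, hx⟩ := bA.interior_nonempty
  obtain ⟨y, hy⟩ := bB.interior_nonempty
  obtain ⟨g, hg, g1⟩ := geometric_hahn_banach_of_nonempty_interior_point hC hcon
    ⟨x, interior_mono hA hx⟩
  have hw : b - a ≠ 0 := sub_ne_zero.2 hab.symm
  have fa : f a = c := le_antisymm (f1 a ha.1) (f2 a ha.2)
  have fb : f b = c := le_antisymm (f1 b hb.1) (f2 b hb.2)
  have hfw : f (b - a) = 0 := by rw [map_sub, fa, fb, sub_self]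
  obtain ⟨ga, gb⟩ := eq_of_openSegment hz (g1 a (hA ha.1)) (g1 b (hA hb.1)) rfl
  have hgw : g (b - a) = 0 := by rw [map_sub, ga, gb, sub_self]
  obtain ⟨r, hr⟩ := exists_smul_of_ker hf hw hfw hgw
  have e1 := lt_of_interior hf f1 hx
  have e2 := gt_of_interior hf f2 hy
  have e3 := lt_of_interior hg g1 (interior_mono hA hx)
  have e4 := lt_of_interior hg g1 (interior_mono hB hy)
  rw [← ga, hr, smul_apply, smul_apply, smul_eq_mul, smul_eq_mul, fa] at e3 e4
  rcases le_or_gt 0 r with h | h
  · nlinarith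
  · nlinarith

section

variable {C A B D : Set E2} (h : Tri C A B D)
include h

theorem Tri.compactC : IsCompact C := by
  rw [← h.un]
  exact (h.bA.compact.union h.bB.compact).union h.bD.compact

theorem Tri.triple_subsingleton : (A ∩ B ∩ D).Subsingleton := by
  intro x hx y hy
  by_contra hne
  have hm : midpoint ℝ x y ∈ openSegment ℝ x y := by
    rw [midpoint_eq_smul_add, smul_add]
    exact ⟨⅟2, ⅟2, by norm_num, by norm_num, by norm_num, rfl⟩
  have hmD : midpoint ℝ x y ∈ D := h.bD.convex.openSegment_subset hx.2 hy.2 hm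
  exact no_third h.bA h.bB h.bD h.dAB h.dAD h.dBD hne hx.1 hy.1 hm hmD

theorem Tri.inter_frontier_null : μH[1] ((A ∩ B) ∩ frontier C) = 0 := by
  rcases (A ∩ B).eq_empty_or_nonempty with he | hne
  · rw [he, empty_inter, measure_empty]
  obtain ⟨a, b, hab⟩ := inter_segment h.bA h.bB h.dAB hne
  have ha : a ∈ A ∩ B := by rw [hab]; exact left_mem_segment ℝ a b
  have hb : b ∈ A ∩ B := by rw [hab]; exact right_mem_segment ℝ a b
  have hsub : (A ∩ B) ∩ frontier C ⊆ {a, b} := by
    rintro z ⟨hz, hzC⟩
    by_contra hcon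
    simp only [mem_insert_iff, mem_singleton_iff, not_or] at hcon
    rw [hab] at hz
    have hne' : a ≠ b := by
      rintro rfl
      rw [segment_same] at hz
      exact hcon.1 hz
    have hz' : z ∈ openSegment ℝ a b :=
      mem_openSegment_of_ne_left_right (Ne.symm hcon.1) (Ne.symm hcon.2) hz
    have := openSegment_interior h.conv h.bA h.bB h.dAB h.subA h.subB hne' ha hb hz'
    exact hzC.2 this
  have hfin : ({a, b} : Set E2).Finite := toFinite _
  exact measure_mono_null hsub (hfin.measure_zero _)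

theorem Tri.frontier_eq : frontier A = (A ∩ frontier C) ∪ (A ∩ B) ∪ (A ∩ D) := by
  apply Subset.antisymm
  · intro x hx
    have hxA : x ∈ A := h.bA.closed.frontier_subset hx
    by_cases hxC : x ∈ interior C
    · -- nearby points outside `A` are in `B ∪ D`
      have h1 : x ∈ closure (B ∪ D) := by
        rw [mem_closure_iff]
        intro o ho hxo
        by_contra hcon
        rw [not_nonempty_iff_eq_empty] at hcon
        have h2 : o ∩ interior C ⊆ A := by
          rintro y ⟨hyo, hyC⟩
          have h3 : y ∈ A ∪ B ∪ D := by rw [h.un]; exact interior_subset hyC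
          rcases h3 with (h3 | h3) | h3
          · exact h3
          · have : y ∈ o ∩ (B ∪ D) := ⟨hyo, Or.inl h3⟩
            rw [hcon] at this; exact this.elim
          · have : y ∈ o ∩ (B ∪ D) := ⟨hyo, Or.inr h3⟩
            rw [hcon] at this; exact this.elim
        have h4 : x ∈ interior A :=
          mem_interior.2 ⟨o ∩ interior C, h2, ho.inter isOpen_interior, hxo, hxC⟩
        exact hx.2 h4
      rw [(h.bB.closed.union h.bD.closed).closure_eq] at h1
      rcases h1 with h1 | h1
      · exact Or.inl (Or.inr ⟨hxA, h1⟩)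
      · exact Or.inr ⟨hxA, h1⟩
    · refine Or.inl (Or.inl ⟨hxA, ?_⟩)
      exact ⟨subset_closure (h.subA hxA), hxC⟩
  · have hdis : ∀ X : Set E2, IsConvexBody X → Disjoint (interior A) (interior X) →
        ∀ x ∈ A ∩ X, x ∈ frontier A := by
      intro X hX hd x hx
      refine ⟨subset_closure hx.1, fun hxi => ?_⟩
      obtain ⟨f, c, hf, f1, f2⟩ := separate h.bA hX hd
      have e1 := lt_of_interior hf f1 hxi
      have e2 := f2 x hx.2
      linarith
    rintro x ((⟨hx, hxC⟩ | hx) | hx)
    · exact ⟨subset_closure hx, fun hxi => hxC.2 (interior_mono h.subA hxi)⟩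
    · exact hdis B h.bB h.dAB x hx
    · exact hdis D h.bD h.dAD x hx

theorem Tri.perimeter_eq : perimeter A =
    μH[1] (A ∩ frontier C) + μH[1] (A ∩ B) + μH[1] (A ∩ D) := by
  have mA := h.bA.closed.measurableSet
  have mB := h.bB.closed.measurableSet
  have mD := h.bD.closed.measurableSet
  have mC : MeasurableSet (frontier C) := isClosed_frontier.measurableSet
  rw [perimeter, h.frontier_eq]
  rw [measure_union₀ (mA.inter mD).nullMeasurableSet, measure_union₀ (mA.inter mB).nullMeasurableSet]
  · refine measure_mono_null ?_ h.inter_frontier_null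
    rintro x ⟨⟨h1, h2⟩, h3⟩
    exact ⟨h3, h2⟩
  · have hsub : ((A ∩ frontier C ∪ A ∩ B) ∩ (A ∩ D)) ⊆
        ((A ∩ D) ∩ frontier C) ∪ (A ∩ B ∩ D) := by
      rintro x ⟨h1 | h1, h2⟩
      · exact Or.inl ⟨h2, h1.2⟩
      · exact Or.inr ⟨h1, h2.2⟩
    refine measure_mono_null hsub ?_
    rw [measure_union_null_iff]
    exact ⟨h.swap23.inter_frontier_null, h.triple_subsingleton.measure_zero _⟩

theorem Tri.frontier_split : μH[1] (frontier C) =
    μH[1] (A ∩ frontier C) + μH[1] (B ∩ frontier C) + μH[1] (D ∩ frontier C) := by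
  have mA := h.bA.closed.measurableSet
  have mB := h.bB.closed.measurableSet
  have mD := h.bD.closed.measurableSet
  have mC : MeasurableSet (frontier C) := isClosed_frontier.measurableSet
  have hfr : frontier C = (A ∩ frontier C) ∪ (B ∩ frontier C) ∪ (D ∩ frontier C) := by
    rw [← union_inter_distrib_right, ← union_inter_distrib_right, h.un]
    exact (inter_eq_right.2 h.compactC.isClosed.frontier_subset).symm
  conv_lhs => rw [hfr]
  rw [measure_union₀ (mD.inter mC).nullMeasurableSet, measure_union₀ (mB.inter mC).nullMeasurableSet]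
  · refine measure_mono_null ?_ h.inter_frontier_null
    rintro x ⟨⟨h1, h2⟩, h3, h4⟩
    exact ⟨⟨h1, h3⟩, h2⟩
  · have hsub : ((A ∩ frontier C ∪ B ∩ frontier C) ∩ (D ∩ frontier C)) ⊆
        ((A ∩ D) ∩ frontier C) ∪ ((B ∩ D) ∩ frontier C) := by
      rintro x ⟨h1 | h1, h2⟩
      · exact Or.inl ⟨⟨h1.1, h2.1⟩, h1.2⟩
      · exact Or.inr ⟨⟨h1.1, h2.1⟩, h1.2⟩
    refine measure_mono_null hsub ?_
    rw [measure_union_null_iff]
    exact ⟨h.swap23.inter_frontier_null, h.swap12.swap23.inter_frontier_null⟩

/-- total perimeter: the perimeter of `C` and twice the length of the cuts -/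
theorem Tri.total : perimeter A + perimeter B + perimeter D =
    perimeter C + 2 * (μH[1] (A ∩ B) + μH[1] (A ∩ D) + μH[1] (B ∩ D)) := by
  rw [h.perimeter_eq, h.swap12.perimeter_eq, h.swap23.swap12.perimeter_eq]
  rw [perimeter, h.frontier_split, inter_comm B A, inter_comm D A, inter_comm D B]
  ring

end

end Pool.Agent.K4H73.Greedy
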